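import Pool.Agent.R600.AK.Stm

set_option autoImplicit false

namespace Pool.Agent.R600.AK

open Finset

namespace CAaux

variable {n : ℕ} {A : Finset (Fin n) → Fin n → Prop}

lemma leA_sub {I J : Finset (Fin n)} (h : LeA A I J) : I ⊆ J := by
  induction h with
  | refl => exact Subset.refl _
  | tail _ hs ih =>
    obtain ⟨j, _, _, rfl⟩ := hs
    exact ih.trans (subset_insert _ _)

lemma leA_eq {I J : Finset (Fin n)} (h : LeA A I J) (hc : J.card ≤ I.card) : I = J :=
  eq_of_subset_of_card_le (leA_sub h) hc

lemma KK_zero (σ : Fin n → Fin n) : KK σ 0 = ∅ := by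
  simp [KK]

lemma KK_succ (σ : Fin n → Fin n) (i : Fin n) :
    KK σ (i.val + 1) = insert (σ i) (KK σ i.val) := by
  have : (univ.filter (fun k : Fin n => k.val < i.val + 1)) =
      insert i (univ.filter (fun k : Fin n => k.val < i.val)) := by
    ext k
    simp only [mem_filter, mem_univ, true_and, mem_insert, Fin.ext_iff]
    omega
  unfold KK
  rw [this, image_insert]

lemma notMem_KK {σ : Fin n → Fin n} (hσ : Function.Injective σ) (i : Fin n) :
    σ i ∉ KK σ i.val := by
  intro h
  simp only [KK, mem_image, mem_filter, mem_univ, true_and] at h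
  obtain ⟨k, hk, hki⟩ := h
  have := hσ hki
  subst this
  exact lt_irrefl _ hk

lemma card_KK {σ : Fin n → Fin n} (hσ : Function.Injective σ) :
    ∀ m : ℕ, m ≤ n → (KK σ m).card = m := by
  intro m
  induction m with
  | zero => intro _; simp [KK_zero]
  | succ m ih =>
    intro hm
    have h1 := KK_succ σ ⟨m, by omega⟩
    simp only at h1
    rw [h1, card_insert_of_notMem (notMem_KK hσ ⟨m, by omega⟩), ih (by omega)]

lemma step_KK {σ : Fin n → Fin n} (hσ : Allowed A σ) (i : Fin n) :
    StepA A (KK σ i.val) (KK σ (i.val + 1)) :=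
  ⟨σ i, notMem_KK hσ.1 i, hσ.2 i, KK_succ σ i⟩

lemma le_KK {σ : Fin n → Fin n} (hσ : Allowed A σ) (i : ℕ) :
    ∀ j : ℕ, i ≤ j → j ≤ n → LeA A (KK σ i) (KK σ j) := by
  intro j hij
  induction j, hij using Nat.le_induction with
  | base => intro _; exact Relation.ReflTransGen.refl
  | succ j hij ih =>
    intro hj
    exact (ih (by omega)).tail (step_KK hσ ⟨j, by omega⟩)

lemma KK_n {σ : Fin n → Fin n} (hσ : Function.Injective σ) : KK σ n = univ := by
  apply eq_univ_of_card
  rw [card_KK hσ n le_rfl, Fintype.card_fin]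

lemma chain_Fc {σ : Fin n → Fin n} (hσ : Allowed A σ) : IsCh (XA A) (LeA A) (Fc σ) := by
  refine ⟨?_, ?_⟩
  · intro x hx
    simp only [Fc, mem_image, mem_range] at hx
    obtain ⟨m, hm, rfl⟩ := hx
    refine ⟨?_, ?_⟩
    · have := le_KK hσ 0 m (Nat.zero_le _) (by omega)
      rwa [KK_zero] at this
    · have := le_KK hσ m n (by omega) le_rfl
      rwa [KK_n hσ.1] at this
  · intro x hx y hy
    simp only [Fc, mem_image, mem_range] at hx hy
    obtain ⟨a, ha, rfl⟩ := hx
    obtain ⟨b, hb, rfl⟩ := hy
    rcases le_total a b with h | h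
    · exact Or.inl (le_KK hσ a b h (by omega))
    · exact Or.inr (le_KK hσ b a h (by omega))

lemma facet_Fc {σ : Fin n → Fin n} (hσ : Allowed A σ) : IsFacet (XA A) (LeA A) (Fc σ) := by
  refine ⟨chain_Fc hσ, ?_⟩
  intro t ht hsub
  refine Subset.antisymm ?_ hsub
  intro x hx
  have hxc : x.card ≤ n := by
    have := card_le_univ x
    rwa [Fintype.card_fin] at this
  have hm : KK σ x.card ∈ Fc σ := by
    simp only [Fc, mem_image, mem_range]
    exact ⟨x.card, by omega, rfl⟩
  have hc := card_KK hσ.1 x.card hxc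
  rcases ht.2 x hx _ (hsub hm) with h | h
  · have := leA_eq h (by rw [hc])
    rw [this]; exact hm
  · have := leA_eq h (by rw [hc])
    rw [← this]; exact hm

/-- a maximal chain from `∅` to `J` through all elements of `s` -/
def PathTo (A : Finset (Fin n) → Fin n → Prop) (s : Finset (Finset (Fin n)))
    (J : Finset (Fin n)) : Prop :=
  ∃ P : ℕ → Finset (Fin n), P 0 = ∅ ∧ P J.card = J ∧
    (∀ i < J.card, StepA A (P i) (P (i + 1))) ∧ ∀ I ∈ s, I.card ≤ J.card ∧ P I.card = I

lemma path_step {s : Finset (Finset (Fin n))} {J J' : Finset (Fin n)}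
    (h : PathTo A s J) (hs : StepA A J J') : PathTo A s J' := by
  obtain ⟨P, h0, hJ, hst, hI⟩ := h
  obtain ⟨j, hj, hA, rfl⟩ := id hs
  have hc : (insert j J).card = J.card + 1 := card_insert_of_notMem hj
  refine ⟨fun i => if i ≤ J.card then P i else insert j J, ?_, ?_, ?_, ?_⟩
  · simp [h0]
  · simp only [hc]
    rw [if_neg (by omega)]
  · intro i hi
    rw [hc] at hi
    simp only
    rcases Nat.lt_or_ge i J.card with h | h
    · rw [if_pos (by omega), if_pos (by omega)]
      exact hst i h
    · have : i = J.card := by omega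
      subst this
      rw [if_pos le_rfl, if_neg (by omega), hJ]
      exact hs
  · intro I hIs
    obtain ⟨h1, h2⟩ := hI I hIs
    refine ⟨by omega, ?_⟩
    simp only
    rw [if_pos h1, h2]

lemma path_le {s : Finset (Finset (Fin n))} {J J' : Finset (Fin n)}
    (h : PathTo A s J) (hs : LeA A J J') : PathTo A s J' := by
  induction hs with
  | refl => exact h
  | tail _ hs ih => exact path_step ih hs

lemma path_main : ∀ (k : ℕ) (s : Finset (Finset (Fin n))) (J : Finset (Fin n)), s.card = k →
    (∀ x ∈ s, ∀ y ∈ s, LeA A x y ∨ LeA A y x) → (∀ x ∈ s, LeA A ∅ x) →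
    (∀ x ∈ s, LeA A x J) → LeA A ∅ J → PathTo A s J := by
  intro k
  induction k with
  | zero =>
    intro s J hk _ _ _ hJ
    have hs : s = ∅ := card_eq_zero.mp hk
    subst hs
    refine path_le (J := ∅) ?_ hJ
    exact ⟨fun _ => ∅, rfl, rfl, by simp, by simp⟩
  | succ k ih =>
    intro s J hk hc h0 hJ _
    have hne : s.Nonempty := by
      rw [← card_pos]; omega
    obtain ⟨M, hM, hmax⟩ := exists_max_image s card hne
    have hP : PathTo A (s.erase M) M := by
      refine ih (s.erase M) M ?_ ?_ ?_ ?_ (h0 M hM)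
      · rw [card_erase_of_mem hM]; omega
      · intro x hx y hy
        exact hc x (mem_of_mem_erase hx) y (mem_of_mem_erase hy)
      · intro x hx
        exact h0 x (mem_of_mem_erase hx)
      · intro x hx
        have hxs := mem_of_mem_erase hx
        rcases hc x hxs M hM with h | h
        · exact h
        · have := leA_eq h (hmax x hxs)
          exact absurd this.symm (ne_of_mem_erase hx)
    obtain ⟨P, p0, pM, pst, pI⟩ := hP
    have hP2 : PathTo A s M := by
      refine ⟨P, p0, pM, pst, ?_⟩
      intro I hI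
      by_cases h : I = M
      · subst h; exact ⟨le_rfl, pM⟩
      · exact pI I (mem_erase.mpr ⟨h, hI⟩)
    exact path_le hP2 (hJ M hM)

end CAaux

open CAaux in
theorem ca : StmCA := by
  intro n A hle s
  constructor
  · intro hs
    have hP : PathTo A s univ := path_main s.card s univ rfl hs.1.2 (fun x hx => (hs.1.1 x hx).1)
      (fun x hx => (hs.1.1 x hx).2) hle
    obtain ⟨P, p0, pn, pst, pI⟩ := hP
    rw [card_univ, Fintype.card_fin] at pn pst
    choose σ hσ1 hσ2 hσ3 using fun i : Fin n => pst i.val i.isLt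
    have hK : ∀ m : ℕ, m ≤ n → KK σ m = P m := by
      intro m
      induction m with
      | zero => intro _; rw [KK_zero, p0]
      | succ m ih =>
        intro hm
        have h1 := KK_succ σ ⟨m, by omega⟩
        have h2 := hσ3 ⟨m, by omega⟩
        simp only at h1 h2
        rw [h1, h2, ih (by omega)]
    have hlt : ∀ i j : Fin n, i < j → σ i ≠ σ j := by
      intro i j hij he
      apply hσ1 j
      rw [← hK j.val (by omega), ← he]
      simp only [KK, mem_image, mem_filter, mem_univ, true_and]
      exact ⟨i, hij, rfl⟩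
    have hinj : Function.Injective σ := by
      intro i j he
      by_contra hne
      rcases lt_or_gt_of_ne hne with h | h
      · exact hlt i j h he
      · exact hlt j i h he.symm
    have hall : Allowed A σ := by
      refine ⟨hinj, fun i => ?_⟩
      rw [hK i.val (by omega)]
      exact hσ2 i
    refine ⟨σ, hall, ?_⟩
    apply hs.2 _ (chain_Fc hall)
    intro I hI
    obtain ⟨h1, h2⟩ := pI I hI
    simp only [Fc, mem_image, mem_range]
    have hIc : I.card ≤ n := by
      have := card_le_univ I
      rwa [Fintype.card_fin] at this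
    exact ⟨I.card, by omega, by rw [hK _ hIc, h2]⟩
  · rintro ⟨σ, hσ, rfl⟩
    exact facet_Fc hσ

end Pool.Agent.R600.AK
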