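import Pool.Agent.R600.AK.Stm

/-! Piece CB of project AK (MP_20db89_co). -/

set_option autoImplicit false

namespace Pool.Agent.R600.AK

open Finset

namespace CB27

variable {n : ℕ}

theorem mem_KK (σ : Fin n → Fin n) (m : ℕ) (x : Fin n) :
    x ∈ KK σ m ↔ ∃ i : Fin n, i.val < m ∧ σ i = x := by
  unfold KK
  simp

theorem card_KK {σ : Fin n → Fin n} (h : Function.Injective σ) {m : ℕ} (hm : m ≤ n) :
    (KK σ m).card = m := by
  unfold KK
  rw [card_image_of_injective _ h, Fin.card_filter_val_lt, min_eq_right hm]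

theorem KK_n {σ : Fin n → Fin n} (h : Function.Injective σ) : KK σ n = univ := by
  have hs := Finite.injective_iff_surjective.1 h
  ext x
  simp only [mem_KK, mem_univ, iff_true]
  obtain ⟨i, hi⟩ := hs x
  exact ⟨i, i.2, hi⟩

end CB27

open CB27

theorem cb : StmCB := by
  intro n A H1 H2 σ τ hσ hτ m hm hlt
  have e0 : KK σ m.val = KK τ m.val := by
    ext x
    simp only [mem_KK]
    constructor
    · rintro ⟨i, hi, rfl⟩
      exact ⟨i, hi, (hm i hi).symm⟩
    · rintro ⟨i, hi, rfl⟩
      exact ⟨i, hi, hm i hi⟩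
  have hex : ∃ q : ℕ, m.val < q ∧ KK σ q = KK τ q :=
    ⟨n, m.2, by rw [KK_n hσ.1, KK_n hτ.1]⟩
  classical
  obtain ⟨q, ⟨hmq, hq⟩, hqmin⟩ : ∃ q : ℕ, (m.val < q ∧ KK σ q = KK τ q) ∧
      ∀ r, r < q → ¬ (m.val < r ∧ KK σ r = KK τ r) :=
    ⟨Nat.find hex, Nat.find_spec hex, fun r hr => Nat.find_min hex hr⟩
  have hqn : q ≤ n := by
    by_contra h
    exact hqmin n (by omega) ⟨m.2, by rw [KK_n hσ.1, KK_n hτ.1]⟩
  obtain ⟨p, hmp, hpq, hpn, hpn0, hasc⟩ : ∃ p : ℕ, m.val ≤ p ∧ p + 1 < q ∧ ∃ (h : p + 1 < n)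
      (h0 : p < n), τ ⟨p, h0⟩ < τ ⟨p + 1, h⟩ := by
    by_contra hno
    push Not at hno
    have hle : ∀ (d : ℕ) (i : ℕ) (hi : i < n), i = m.val + d → i < q → τ ⟨i, hi⟩ ≤ τ m := by
      intro d
      induction d with
      | zero =>
        intro i hi h1 h2
        have : (⟨i, hi⟩ : Fin n) = m := Fin.ext (by simpa using h1)
        rw [this]
      | succ d ih =>
        intro i hi h1 h2
        have hi' : m.val + d < n := by omega
        have h3 := ih (m.val + d) hi' rfl (by omega)
        have h4 := hno (m.val + d) (by omega) (by omega) (by omega) hi'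
        have h5 : (⟨i, hi⟩ : Fin n) = ⟨m.val + d + 1, by omega⟩ := Fin.ext (by simp; omega)
        rw [h5]
        exact h4.trans h3
    have h1 : σ m ∈ KK τ q := by
      rw [← hq, mem_KK]
      exact ⟨m, hmq, rfl⟩
    rw [mem_KK] at h1
    obtain ⟨i, hiq, hi⟩ := h1
    have h2 : ¬ i.val < m.val := by
      intro h
      have : σ m ∈ KK σ m.val := by
        rw [e0, mem_KK]
        exact ⟨i, h, hi⟩
      rw [mem_KK] at this
      obtain ⟨j, hj, hj'⟩ := this
      have := hσ.1 hj'
      rw [this] at hj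
      exact lt_irrefl _ hj
    have h3 := hle (i.val - m.val) i.val i.2 (by omega) hiq
    have h4 : (⟨i.val, i.2⟩ : Fin n) = i := rfl
    rw [h4, hi] at h3
    exact absurd h3 (not_le.2 hlt)
  obtain ⟨P0, hP0⟩ : ∃ P : Fin n, P = ⟨p, hpn0⟩ := ⟨_, rfl⟩
  obtain ⟨P1, hP1⟩ : ∃ P : Fin n, P = ⟨p + 1, hpn⟩ := ⟨_, rfl⟩
  rw [← hP0, ← hP1] at hasc
  have v0 : P0.val = p := by rw [hP0]
  have v1 : P1.val = p + 1 := by rw [hP1]
  have hne : P0 ≠ P1 := by
    intro h
    rw [h] at v0
    omega
  let ρ : Fin n → Fin n := fun i => τ (Equiv.swap P0 P1 i)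
  have hρ0 : ρ P0 = τ P1 := by simp [ρ]
  have hρ1 : ρ P1 = τ P0 := by simp [ρ]
  have hρ : ∀ i, i ≠ P0 → i ≠ P1 → ρ i = τ i := fun i h0 h1 => by
    simp only [ρ]
    rw [Equiv.swap_apply_of_ne_of_ne h0 h1]
  have hρinj : Function.Injective ρ := hτ.1.comp (Equiv.injective _)
  have hsw : ∀ (r : ℕ) (j : Fin n), r ≠ p + 1 → j.val < r → (Equiv.swap P0 P1 j).val < r := by
    intro r j hr hj
    by_cases h0 : j = P0
    · subst h0
      rw [Equiv.swap_apply_left]
      omega
    · by_cases h1 : j = P1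
      · subst h1
        rw [Equiv.swap_apply_right]
        omega
      · rw [Equiv.swap_apply_of_ne_of_ne h0 h1]
        exact hj
  have hKK : ∀ r : ℕ, r ≠ p + 1 → KK ρ r = KK τ r := by
    intro r hr
    ext x
    simp only [mem_KK]
    constructor
    · rintro ⟨j, hj, rfl⟩
      exact ⟨_, hsw r j hr hj, rfl⟩
    · rintro ⟨j, hj, rfl⟩
      refine ⟨Equiv.swap P0 P1 j, hsw r j hr hj, ?_⟩
      simp [ρ]
  have hKne : KK ρ (p + 1) ≠ KK τ (p + 1) := by
    intro h
    have h1 : τ P0 ∈ KK τ (p + 1) := by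
      rw [mem_KK]
      exact ⟨P0, by omega, rfl⟩
    rw [← h, mem_KK] at h1
    obtain ⟨j, hj, hj'⟩ := h1
    rw [← hρ1] at hj'
    have := hρinj hj'
    rw [this] at hj
    omega
  have hAll : Allowed A ρ := by
    refine ⟨hρinj, fun i => ?_⟩
    by_cases h0 : i = P0
    · subst h0
      rw [hρ0, v0, hKK p (by omega)]
      have h2 := hτ.2 P1
      rw [v1] at h2
      refine H2 _ _ _ ?_ h2
      intro x hx
      rw [mem_KK] at hx ⊢
      obtain ⟨j, hj, hj'⟩ := hx
      exact ⟨j, by omega, hj'⟩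
    · by_cases h1 : i = P1
      · subst h1
        rw [hρ1, v1]
        have h2 := hτ.2 P0
        rw [v0] at h2
        refine H1 _ _ _ ?_ h2
        intro x hx
        rw [mem_KK, mem_KK]
        constructor
        · rintro ⟨j, hj, rfl⟩
          refine ⟨j, by omega, hρ j ?_ ?_⟩
          · intro h
            rw [h] at hj
            omega
          · intro h
            rw [h] at hj
            omega
        · rintro ⟨j, hj, rfl⟩
          by_cases h3 : j = P0
          · exfalso
            rw [h3, hρ0] at hx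
            exact absurd hasc (not_lt.2 hx.le)
          · have h4 : j ≠ i := by
              intro h
              rw [h] at hj
              omega
            refine ⟨j, ?_, (hρ j h3 h4).symm⟩
            have h5 : j.val ≠ p := by
              intro h
              apply h3
              apply Fin.ext
              omega
            omega
      · rw [hρ i h0 h1, hKK i.val (by
          intro h
          apply h1
          apply Fin.ext
          omega)]
        exact hτ.2 i
  refine ⟨ρ, hAll, ⟨P0, fun i hi => hρ i hi.ne ?_, by rw [hρ0]; exact hasc⟩,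
    KK τ (p + 1), ?_, ?_⟩
  · intro h
    rw [h] at hi
    have : P1.val < P0.val := hi
    omega
  · unfold Fc
    rw [mem_image]
    exact ⟨p + 1, by simp; omega, rfl⟩
  have hinter : Fc ρ ∩ Fc τ = (Fc τ).erase (KK τ (p + 1)) := by
    ext y
    rw [mem_inter, mem_erase]
    constructor
    · rintro ⟨h1, h2⟩
      refine ⟨?_, h2⟩
      unfold Fc at h1
      rw [mem_image] at h1
      obtain ⟨i, hi, rfl⟩ := h1
      rw [mem_range] at hi
      intro h
      have h3 := congrArg Finset.card h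
      rw [card_KK hρinj (by omega), card_KK hτ.1 (by omega)] at h3
      rw [h3] at h
      exact hKne h
    · rintro ⟨h1, h2⟩
      refine ⟨?_, h2⟩
      unfold Fc at h2 ⊢
      rw [mem_image] at h2 ⊢
      obtain ⟨i, hi, rfl⟩ := h2
      refine ⟨i, hi, hKK i ?_⟩
      intro h
      rw [h] at h1
      exact h1 rfl
  refine ⟨hinter, ?_⟩
  rw [hinter]
  intro y hy
  rw [mem_inter] at hy
  rw [mem_erase]
  refine ⟨?_, hy.2⟩
  have h1 := hy.1
  unfold Fc at h1
  rw [mem_image] at h1
  obtain ⟨i, hi, rfl⟩ := h1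
  rw [mem_range] at hi
  intro h
  have h3 := congrArg Finset.card h
  rw [card_KK hσ.1 (by omega), card_KK hτ.1 (by omega)] at h3
  rw [h3] at h
  exact hqmin (p + 1) hpq ⟨by omega, h⟩

end Pool.Agent.R600.AK
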