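import Pool.Agent.R600.AK.Stm

/-! Project AK (MP_20db89_co), piece CC. -/

set_option autoImplicit false

namespace Pool.Agent.R600.AK

open Finset

namespace CDAux

variable {n : ℕ}

lemma mem_KK {σ : Fin n → Fin n} {m : ℕ} {x : Fin n} :
    x ∈ KK σ m ↔ ∃ i : Fin n, i.val < m ∧ σ i = x := by
  simp [KK]

lemma card_KK {σ : Fin n → Fin n} (hσ : Function.Injective σ) {m : ℕ} (hm : m ≤ n) :
    (KK σ m).card = m := by
  rw [KK, Finset.card_image_of_injective _ hσ]
  have e : (univ.filter (fun i : Fin n => i.val < m)) =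
      (Finset.univ : Finset (Fin m)).map (Fin.castLEEmb hm) := by
    ext i
    simp only [mem_filter, mem_univ, true_and, mem_map, Fin.castLEEmb_apply]
    constructor
    · intro h
      exact ⟨⟨i.val, h⟩, rfl⟩
    · rintro ⟨j, rfl⟩
      exact j.2
  rw [e, Finset.card_map, Finset.card_univ, Fintype.card_fin]

lemma Fc_inj {A : Finset (Fin n) → Fin n → Prop} {σ τ : Fin n → Fin n} (hσ : Allowed A σ)
    (hτ : Allowed A τ) (h : Fc σ = Fc τ) : σ = τ := by
  have key : ∀ m, m ≤ n → KK σ m = KK τ m := by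
    intro m hm
    have h1 : KK σ m ∈ Fc σ := Finset.mem_image_of_mem _ (Finset.mem_range.2 (by omega))
    rw [h] at h1
    obtain ⟨m', hm', he⟩ := Finset.mem_image.1 h1
    rw [Finset.mem_range] at hm'
    have h2 := congrArg Finset.card he
    rw [card_KK hτ.1 (by omega), card_KK hσ.1 hm] at h2
    rw [← he, h2]
  funext i
  have h1 : σ i ∈ KK τ (i.val + 1) := by
    rw [← key (i.val + 1) i.2]
    exact mem_KK.2 ⟨i, by omega, rfl⟩
  obtain ⟨j, hj, he⟩ := mem_KK.1 h1
  have h2 : ¬ j.val < i.val := by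
    intro hlt
    have h3 : σ i ∈ KK σ i.val := by
      rw [key i.val i.2.le]
      exact mem_KK.2 ⟨j, hlt, he⟩
    obtain ⟨k, hk, hke⟩ := mem_KK.1 h3
    have := hσ.1 hke
    omega
  have h4 : j = i := Fin.ext (by omega)
  rw [← he, h4]

lemma le_univ {A : Finset (Fin n) → Fin n → Prop}
    (h1 : ∀ I I' j, (∀ i < j, (i ∈ I ↔ i ∈ I')) → A I j → A I' j) (h0 : ∀ j, A ∅ j) :
    LeA A ∅ univ := by
  have key : ∀ m, m ≤ n → LeA A ∅ (univ.filter (fun i : Fin n => n - m ≤ i.val)) := by
    intro m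
    induction m with
    | zero =>
      intro _
      have e : (univ.filter (fun i : Fin n => n - 0 ≤ i.val)) = ∅ := by
        ext i
        have := i.2
        simp
      rw [e]
      exact Relation.ReflTransGen.refl
    | succ m ih =>
      intro hm
      refine Relation.ReflTransGen.tail (ih (by omega)) ?_
      refine ⟨⟨n - (m + 1), by omega⟩, ?_, ?_, ?_⟩
      · simp only [mem_filter, mem_univ, true_and]
        omega
      · refine h1 ∅ _ _ ?_ (h0 _)
        intro i hi
        have hi' : i.val < n - (m + 1) := hi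
        simp only [mem_filter, mem_univ, true_and, notMem_empty, false_iff]
        omega
      · ext i
        simp only [mem_filter, mem_univ, true_and, mem_insert, Fin.ext_iff]
        omega
  have h2 := key n le_rfl
  have e : (univ.filter (fun i : Fin n => n - n ≤ i.val)) = univ := by
    ext i
    simp
  rw [e] at h2
  exact h2

/-- decoding -/
def dec (x : Lex (Fin n → (Fin n)ᵒᵈ)) : Fin n → Fin n := fun i => OrderDual.ofDual (ofLex x i)

/-- coding -/
def enc (σ : Fin n → Fin n) : Lex (Fin n → (Fin n)ᵒᵈ) := toLex fun i => OrderDual.toDual (σ i)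

lemma dec_enc (σ : Fin n → Fin n) : dec (enc σ) = σ := rfl

lemma enc_dec (x : Lex (Fin n → (Fin n)ᵒᵈ)) : enc (dec x) = x := rfl

lemma lt_iff (x y : Lex (Fin n → (Fin n)ᵒᵈ)) :
    x < y ↔ ∃ m : Fin n, (∀ i < m, dec x i = dec y i) ∧ dec y m < dec x m := Iff.rfl

lemma tr1 {α : Type} (i1 i2 : DecidableEq α) (a b c : Finset α) (x : α)
    (h : @Inter.inter _ (@Finset.instInter α i1) a b = @Finset.erase α i1 c x) :
    @Inter.inter _ (@Finset.instInter α i2) a b = @Finset.erase α i2 c x := by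
  have e : i1 = i2 := Subsingleton.elim _ _
  subst e
  exact h

lemma tr2 {α : Type} (i1 i2 : DecidableEq α) (a b c d : Finset α)
    (h : @Inter.inter _ (@Finset.instInter α i1) a b ⊆
      @Inter.inter _ (@Finset.instInter α i1) c d) :
    @Inter.inter _ (@Finset.instInter α i2) a b ⊆ @Inter.inter _ (@Finset.instInter α i2) c d := by
  have e : i1 = i2 := Subsingleton.elim _ _
  subst e
  exact h

end CDAux

open CDAux Classical in
theorem ccore (ha : StmCA) (hb : StmCB) : StmCC := by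
  intro n A h1 h2 h0
  set T : Finset (Lex (Fin n → (Fin n)ᵒᵈ)) := univ.filter (fun x => Allowed A (dec x)) with hT
  have hTm : ∀ i : Fin T.card, Allowed A (dec (T.orderEmbOfFin rfl i)) := by
    intro i
    have := T.orderEmbOfFin_mem rfl i
    exact (Finset.mem_filter.1 this).2
  have hTs : ∀ ρ, Allowed A ρ → ∃ l : Fin T.card, T.orderEmbOfFin rfl l = enc ρ := by
    intro ρ hρ
    have h3 : enc ρ ∈ (T : Set (Lex (Fin n → (Fin n)ᵒᵈ))) := by
      rw [hT, Finset.mem_coe, Finset.mem_filter]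
      exact ⟨Finset.mem_univ _, hρ⟩
    rw [← Finset.range_orderEmbOfFin T rfl] at h3
    exact h3
  refine ⟨T.card, fun i => Fc (dec (T.orderEmbOfFin rfl i)), ?_, ?_, ?_⟩
  · intro i j hij
    have h3 := Fc_inj (hTm i) (hTm j) hij
    have h4 : T.orderEmbOfFin rfl i = T.orderEmbOfFin rfl j := congrArg enc h3
    exact (T.orderEmbOfFin rfl).injective h4
  · intro s
    rw [ha n A (le_univ h1 h0) s]
    constructor
    · rintro ⟨σ, hσ, rfl⟩
      obtain ⟨l, hl⟩ := hTs σ hσ
      refine ⟨l, ?_⟩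
      show Fc (dec (T.orderEmbOfFin rfl l)) = Fc σ
      rw [hl, dec_enc]
    · rintro ⟨i, rfl⟩
      exact ⟨_, hTm i, rfl⟩
  · intro i j hij
    have h3 : T.orderEmbOfFin rfl i < T.orderEmbOfFin rfl j := (T.orderEmbOfFin rfl).strictMono hij
    obtain ⟨m, hm1, hm2⟩ := (lt_iff _ _).1 h3
    obtain ⟨ρ, hρ, ⟨p, hp1, hp2⟩, x, hx, hx1, hx2⟩ :=
      hb n A h1 h2 _ _ (hTm i) (hTm j) m hm1 hm2
    obtain ⟨l, hl⟩ := hTs ρ hρ
    have h4 : l < j := by
      rw [← (T.orderEmbOfFin rfl).lt_iff_lt, hl]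
      exact (lt_iff _ _).2 ⟨p, hp1, hp2⟩
    refine ⟨l, h4, x, hx, ?_, ?_⟩
    · simp only [hl, dec_enc]
      exact tr1 _ _ _ _ _ _ hx1
    · simp only [hl, dec_enc]
      exact tr2 _ _ _ _ _ _ hx2

end Pool.Agent.R600.AK
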