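import Pool.Agent.R600.AK.Stm2

set_option autoImplicit false

/-! AK2-DE: sorting a descent does not increase the lengths (helper700). -/

namespace Pool.Agent.R600.AK

open Pool.Agent.Helper741 Pool.Agent.TH107 CoxeterSystem

namespace DEx

variable {B : Type*} {M : CoxeterMatrix B} [Fintype B] [DecidableEq B]
variable {W : Type*} [Group W] {cs : CoxeterSystem M W}

lemma hconj {r r1 : W} (hr : cs.IsReflection r) (hr1 : cs.IsReflection r1) :
    ∀ u ∈ Set.range (fun k : ℤ => (r1 * r) ^ k * r1), ∀ u' ∈ Set.range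
      (fun k : ℤ => (r1 * r) ^ k * r1), u * u' * u⁻¹ ∈ Set.range
      (fun k : ℤ => (r1 * r) ^ k * r1) := by
  rintro _ ⟨i, rfl⟩ _ ⟨j, rfl⟩
  refine ⟨i + i - j, ?_⟩
  simp only
  rw [(refl_zpow hr1 hr i).inv]
  have e1 := inv_conj_zpow hr1.mul_self hr.mul_self j
  have e2 := inv_conj_zpow hr1.mul_self hr.mul_self i
  have e3 : (r1 * r) ^ (i + i - j) = (r1 * r) ^ i * ((r1 * r) ^ (-j) * (r1 * r) ^ i) := by
    rw [← zpow_add, ← zpow_add]; congr 1; ring
  rw [e3]
  calc (r1 * r) ^ i * ((r1 * r) ^ (-j) * (r1 * r) ^ i) * r1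
      = (r1 * r) ^ i * (r1 * r) ^ (-j) * (r1 * r1) * (r1 * r) ^ i * r1 := by
        rw [hr1.mul_self, mul_one]; simp only [mul_assoc]
    _ = (r1 * r) ^ i * ((r1 * r) ^ (-j) * r1) * r1 * (r1 * r) ^ i * r1 := by
        simp only [mul_assoc]
    _ = _ := by rw [← e1]; simp only [mul_assoc]

lemma plane {r r1 : W} (hr : cs.IsReflection r) (hr1 : cs.IsReflection r1) :
    ∀ u ∈ Set.range (fun k : ℤ => (r1 * r) ^ k * r1),
      rt cs u ∈ Submodule.span ℝ {rt cs r, rt cs r1} := by
  set P : Submodule ℝ (B → ℝ) := Submodule.span ℝ {rt cs r, rt cs r1} with hP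
  have hPr : rt cs r ∈ P := Submodule.subset_span (by simp)
  have hPr1 : rt cs r1 ∈ P := Submodule.subset_span (by simp)
  have st_r : ∀ v ∈ P, geo cs r v ∈ P := by
    intro v hv; rw [geo_refl hr]; exact P.sub_mem hv (P.smul_mem _ hPr)
  have st_r1 : ∀ v ∈ P, geo cs r1 v ∈ P := by
    intro v hv; rw [geo_refl hr1]; exact P.sub_mem hv (P.smul_mem _ hPr1)
  have stp : ∀ n : ℕ, ∀ v ∈ P, geo cs ((r1 * r) ^ n) v ∈ P := by
    intro n
    induction n with
    | zero => intro v hv; simpa using hv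
    | succ n ih =>
      intro v hv
      rw [pow_succ, ← geo_geo, ← geo_geo]
      exact ih _ (st_r1 _ (st_r v hv))
  have stn : ∀ n : ℕ, ∀ v ∈ P, geo cs ((r1 * r)⁻¹ ^ n) v ∈ P := by
    intro n
    induction n with
    | zero => intro v hv; simpa using hv
    | succ n ih =>
      intro v hv
      rw [pow_succ, ← geo_geo]
      apply ih
      rw [mul_inv_rev, hr.inv, hr1.inv, ← geo_geo]
      exact st_r _ (st_r1 v hv)
  have stz : ∀ m : ℤ, ∀ v ∈ P, geo cs ((r1 * r) ^ m) v ∈ P := by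
    intro m v hv
    rcases Int.eq_nat_or_neg m with ⟨n, rfl | rfl⟩
    · rw [zpow_natCast]; exact stp n v hv
    · rw [zpow_neg, zpow_natCast, ← inv_pow]; exact stn n v hv
  have hpm : ∀ (u : W) (w : W), cs.IsReflection u → geo cs w (rt cs u) ∈ P →
      rt cs (w * u * w⁻¹) ∈ P := by
    intro u w hu h
    rcases ((rt_isRt hu).geo w).cases with h1 | h1
    · rw [rt_conj_pos hu w h1]; exact h
    · rw [rt_conj_neg hu w h1]; exact P.neg_mem h
  rintro _ ⟨k, rfl⟩
  simp only
  rcases Int.even_or_odd' k with ⟨m, rfl | rfl⟩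
  · have h : (r1 * r) ^ (2 * m) * r1 = (r1 * r) ^ m * r1 * ((r1 * r) ^ m)⁻¹ := by
      rw [← zpow_neg, mul_assoc ((r1 * r) ^ m), inv_conj_zpow hr1.mul_self hr.mul_self, neg_neg,
        ← mul_assoc, ← zpow_add, two_mul]
    rw [h]
    exact hpm _ _ hr1 (stz m _ hPr1)
  · have h : (r1 * r) ^ (2 * m + 1) * r1 = (r1 * r) ^ (m + 1) * r * ((r1 * r) ^ (m + 1))⁻¹ := by
      rw [← zpow_neg, mul_assoc ((r1 * r) ^ (m + 1)), inv_conj_zpow' hr1.mul_self hr.mul_self,
        neg_neg]
      have e : (r1 * r) ^ (m + 1) * r = (r1 * r) ^ m * r1 := by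
        rw [zpow_add_one, mul_assoc, mul_assoc, hr.mul_self, mul_one]
      rw [e, ← mul_assoc, ← zpow_add]
      congr 2
      ring
    rw [h]
    exact hpm _ _ hr (stz (m + 1) _ hPr)

end DEx

open DEx in
theorem de : StmDE := by
  intro B _ _ M W _ _ cs L l μ hL hμ A C t s hf hlt
  classical
  have ht : cs.IsReflection t := hf.1 t (by simp)
  have hs : cs.IsReflection s := hf.1 s (by simp)
  have hts : t ≠ s := by rintro rfl; exact lt_irrefl _ hlt
  -- the largest reflection of the form `(t s)^k t`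
  obtain ⟨y, ⟨k, hk⟩, hmax⟩ : ∃ y ∈ Set.range (fun k : ℤ => (t * s) ^ k * t),
      ∀ u ∈ Set.range (fun k : ℤ => (t * s) ^ k * t), μ u ≤ μ y :=
    Set.exists_max_image _ μ (Set.toFinite _) ⟨t, 0, by simp⟩
  simp only at hk
  have hy : cs.IsReflection y := by rw [← hk]; exact refl_zpow ht hs k
  obtain ⟨x, hx⟩ : ∃ x, x = (t * s) ^ (k + 1) * t := ⟨_, rfl⟩
  have hxr : cs.IsReflection x := by rw [hx]; exact refl_zpow ht hs (k + 1)
  have hxy : x * y = t * s := by
    rw [hx, ← hk, mul_assoc, ← mul_assoc t, inv_conj_zpow ht.mul_self hs.mul_self, mul_assoc,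
      ht.mul_self, mul_one, ← zpow_add]
    simp
  have hne : x ≠ y := by
    rintro rfl
    rw [hxr.mul_self] at hxy
    apply hts
    have h1 : t = s⁻¹ := eq_inv_of_mul_eq_one_left hxy.symm
    rw [h1, hs.inv]
  set R : Set W := Set.range (fun j : ℤ => (x * y) ^ j * x) with hRd
  have hRR : ∀ u ∈ R, u ∈ Set.range (fun k : ℤ => (t * s) ^ k * t) := by
    rintro _ ⟨j, rfl⟩
    refine ⟨j + (k + 1), ?_⟩
    simp only
    rw [hxy, hx, zpow_add (t * s) j (k + 1), mul_assoc]
  have hR : ∀ u ∈ R, cs.IsReflection u := by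
    rintro _ ⟨j, rfl⟩
    exact refl_zpow hxr hy j
  have hc := hconj hy hxr
  rw [← hRd] at hc
  have hpl := plane hy hxr
  rw [← hRd] at hpl
  have hxR : x ∈ R := ⟨0, by simp⟩
  have hyR : y ∈ R := by
    refine ⟨-1, ?_⟩
    simp only [zpow_neg, zpow_one, mul_inv_rev, hy.inv, hxr.inv]
    rw [mul_assoc, hxr.mul_self, mul_one]
  have htR : t ∈ R := by
    refine ⟨-(k + 1), ?_⟩
    simp only
    rw [hxy, hx, ← mul_assoc, ← zpow_add]
    simp
  have hsR : s ∈ R := by
    refine ⟨-(k + 1) - 1, ?_⟩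
    simp only
    rw [hxy, hx, ← mul_assoc, ← zpow_add]
    have e : -(k + 1) - 1 + (k + 1) = -1 := by ring
    rw [e, zpow_neg, zpow_one, mul_inv_rev, ht.inv, hs.inv, mul_assoc, ht.mul_self, mul_one]
  have hmu : ∀ u ∈ R, u ≠ y → μ u < μ y := fun u hu hne =>
    lt_of_le_of_ne (hmax u (hRR u hu)) fun h => hne (hμ.inj u y (hR u hu) hy h)
  -- orthogonality
  have hfac : Fac cs l (A ++ x :: y :: C) := by
    obtain ⟨h1, h2, h3⟩ := hf
    refine ⟨?_, ?_, ?_⟩
    · intro u hu
      simp only [List.mem_append, List.mem_cons] at hu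
      rcases hu with hu | hu | hu | hu
      · exact h1 u (by simp [hu])
      · rw [hu]; exact hxr
      · rw [hu]; exact hy
      · exact h1 u (by simp [hu])
    · rw [← h2]
      simp only [List.prod_append, List.prod_cons]
      rw [← mul_assoc x, hxy, mul_assoc t]
    · rw [← h3]
      simp
  have horth : L (rt cs y) (rt cs x) = 0 := by
    have h := hfac.orth hL
    unfold Orth at h
    rw [List.pairwise_append] at h
    exact (List.pairwise_cons.1 h.2.1).1 y (by simp)
  have hyy : L (rt cs y) (rt cs y) = 1 := hL.sym.root (bil_rt_self hy)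
  have hlam : L (rt cs x) (rt cs y) ≤ 0 := (hμ.pos x y hxr hy (hmu x hxR hne)).2
  -- nonnegative combinations
  have hcomb : ∀ u ∈ R, ∃ a b : ℝ, 0 ≤ a ∧ 0 ≤ b ∧ rt cs u = a • rt cs x + b • rt cs y := by
    intro u hu
    by_cases huy : u = y
    · exact ⟨0, 1, le_refl _, zero_le_one, by rw [huy]; simp⟩
    obtain ⟨b, a, hab⟩ := Submodule.mem_span_pair.mp (hpl u hu)
    have hab' : rt cs u = a • rt cs x + b • rt cs y := by rw [← hab, add_comm]
    obtain ⟨h1, h2⟩ := hμ.pos u y (hR u hu) hy (hmu u hu huy)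
    have hb : L (rt cs y) (rt cs u) = b := by
      rw [hab', map_add, map_smul, map_smul, horth, hyy]
      simp
    rw [hb] at h1
    have h3 : L (rt cs u) (rt cs y) = a * L (rt cs x) (rt cs y) + b := by
      rw [hab', map_add, map_smul, map_smul, LinearMap.add_apply, LinearMap.smul_apply,
        LinearMap.smul_apply, hyy]
      simp
    rw [h3] at h2
    refine ⟨a, b, ?_, h1, hab'⟩
    by_contra ha
    push Not at ha
    have h4 : 0 ≤ a * L (rt cs x) (rt cs y) := mul_nonneg_of_nonpos_of_nonpos ha.le hlam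
    have hb0 : b = 0 := by linarith
    have h5 : rt cs u ≤ 0 := by
      rw [hab', hb0, zero_smul, add_zero]
      exact smul_nonpos_of_nonpos_of_nonneg ha.le (rt_pos hxr)
    exact (rt_isRt (hR u hu)).not_both (rt_pos (hR u hu)) h5
  -- the two shortest elements
  obtain ⟨p, hpR, hpmin⟩ : ∃ a ∈ R, ∀ u ∈ R, cs.length a ≤ cs.length u := by
    obtain ⟨a, ha, hmin⟩ := WellFounded.has_min (measure cs.length).wf R ⟨x, hxR⟩
    exact ⟨a, ha, fun u hu => not_lt.mp (hmin u hu)⟩
  obtain ⟨q, ⟨hqR, hqp⟩, hqmin⟩ : ∃ b ∈ R \ {p}, ∀ u ∈ R \ {p}, cs.length b ≤ cs.length u := by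
    have hne2 : (R \ {p}).Nonempty := by
      by_cases h : x = p
      · exact ⟨y, hyR, by rw [← h]; exact hne.symm⟩
      · exact ⟨x, hxR, h⟩
    obtain ⟨b, hb, hmin⟩ := WellFounded.has_min (measure cs.length).wf _ hne2
    exact ⟨b, hb, fun u hu => not_lt.mp (hmin u hu)⟩
  have hqp : q ≠ p := hqp
  have hqmin' : ∀ u ∈ R, u ≠ p → cs.length q ≤ cs.length u := fun u hu hua => hqmin u ⟨hu, hua⟩
  have ca := min_canon hR hc hpR hpmin
  have cb := snd_canon hR hc hpR hpmin hqR hqp hqmin'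
  have hmem : ∀ v ∈ R, (∀ u ∈ R, u ≠ v → 0 ≤ geo cs v (rt cs u)) → v = x ∨ v = y := by
    intro v hv h
    by_contra hcon
    push Not at hcon
    obtain ⟨a, b, ha, hb, hab⟩ := hcomb v hv
    have h1 := h x hxR (Ne.symm hcon.1)
    have h2 := h y hyR (Ne.symm hcon.2)
    have h3 : 0 ≤ geo cs v (rt cs v) := by
      conv_rhs => rw [hab]
      rw [map_add, map_smul, map_smul]
      exact add_nonneg (smul_nonneg ha h1) (smul_nonneg hb h2)
    rw [geo_rt_self (hR v hv)] at h3
    exact (rt_isRt (hR v hv)).not_both (rt_pos (hR v hv)) (neg_nonneg.1 h3)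
  have hp := hmem p hpR ca
  have hq := hmem q hqR cb
  have hql : cs.length q ≤ max (cs.length t) (cs.length s) := by
    by_cases h : t = p
    · exact (hqmin' s hsR (by rw [← h]; exact hts.symm)).trans (le_max_right _ _)
    · exact (hqmin' t htR h).trans (le_max_left _ _)
  have hpq : cs.length p ≤ cs.length q := hpmin q hqR
  have hxl : cs.length x ≤ cs.length q := by
    rcases hp with h | h
    · rw [← h]; exact hpq
    · rcases hq with h' | h'
      · rw [h']
      · exact absurd (h'.trans h.symm) hqp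
  have hyl : cs.length y ≤ cs.length q := by
    rcases hp with h | h
    · rcases hq with h' | h'
      · exact absurd (h'.trans h.symm) hqp
      · rw [h']
    · rw [← h]; exact hpq
  exact ⟨x, y, hxr, hy, hxy, lt_of_lt_of_le hlt (hmax t ⟨0, by simp⟩), hxl.trans hql, hyl.trans hql⟩

end Pool.Agent.R600.AK
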