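import Pool.Agent.R600.AK.Stm2

set_option autoImplicit false

namespace Pool.Agent.R600.AK

open Pool.Agent.Helper741 Pool.Agent.TH107 CoxeterSystem

namespace GGx

variable {B : Type} [Fintype B] [DecidableEq B] {M : CoxeterMatrix B} {W : Type} [Group W]
  {cs : CoxeterSystem M W}

theorem pos_aux (L : Bil B) (hL : Sym M L) : ∀ (E : List W) (v : B → ℝ),
    (∀ σ ∈ E, cs.IsReflection σ) →
    E.Pairwise (fun a b => L (rt cs a) (rt cs b) + L (rt cs b) (rt cs a) ≤ 0) → 0 ≤ v →
    (∀ σ ∈ E, L (rt cs σ) v + L v (rt cs σ) ≤ 0) → 0 ≤ geo cs (E.prod)⁻¹ v := by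
  intro E
  induction E with
  | nil => intro v _ _ hv _; simpa using hv
  | cons σ E ih =>
    intro v hr hp hv hb
    have hσ : cs.IsReflection σ := hr σ (by simp)
    rw [List.pairwise_cons] at hp
    have h2 : bil M (rt cs σ) v ≤ 0 := by
      rw [← hL]
      exact hb σ (by simp)
    rw [List.prod_cons, mul_inv_rev, hσ.inv, ← geo_geo, geo_refl hσ]
    set b := bil M (rt cs σ) v with hbdef
    apply ih
    · intro x hx
      exact hr x (by simp [hx])
    · exact hp.2
    · have h1 := rt_pos hσ
      intro i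
      have h3 := h1 i
      have h4 := hv i
      simp only [Pi.zero_apply, Pi.sub_apply, Pi.smul_apply, smul_eq_mul] at h3 h4 ⊢
      nlinarith
    · intro x hx
      have h5 := hb x (by simp [hx])
      have h6 := hp.1 x hx
      have h7 : L (rt cs x) (v - b • rt cs σ) + L (v - b • rt cs σ) (rt cs x)
          = (L (rt cs x) v + L v (rt cs x))
            - b * (L (rt cs σ) (rt cs x) + L (rt cs x) (rt cs σ)) := by
        rw [map_sub, map_smul, map_sub, map_smul, LinearMap.sub_apply, LinearMap.smul_apply,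
          smul_eq_mul, smul_eq_mul]
        ring
      rw [h7]
      nlinarith

end GGx

theorem gg : StmGG := by
  intro B _ _ M W _ cs L l μ hA hO A D C hF hD D₁ D₂ τ hDe
  subst hDe
  have horth : Orth cs L (A ++ (D₁ ++ τ :: D₂) ++ C) := hF.orth hA
  have hrefl : ∀ t ∈ τ :: D₂, cs.IsReflection t := by
    intro t ht
    apply hF.1
    simp only [List.mem_append, List.mem_cons] at ht ⊢
    tauto
  have hsub : (τ :: D₂).Sublist (A ++ (D₁ ++ τ :: D₂) ++ C) := by
    refine List.Sublist.trans ?_ (List.sublist_append_left _ _)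
    refine List.Sublist.trans ?_ (List.sublist_append_right _ _)
    exact List.sublist_append_right _ _
  have ho : (τ :: D₂).Pairwise (fun t r => L (rt cs r) (rt cs t) = 0) := horth.sublist hsub
  have hm : (τ :: D₂).Pairwise (fun a b => μ a < μ b) :=
    hD.sublist (List.sublist_append_right _ _)
  have hneg : (τ :: D₂).Pairwise
      (fun a b => L (rt cs a) (rt cs b) + L (rt cs b) (rt cs a) ≤ 0) := by
    have hand := ho.and hm
    refine List.Pairwise.imp_of_mem ?_ hand
    intro a b ha hb hab
    have h1 := (hO.pos a b (hrefl a ha) (hrefl b hb) hab.2).2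
    rw [hab.1, add_zero]
    exact h1
  rw [List.pairwise_cons] at hneg
  have hτ : cs.IsReflection τ := hrefl τ (by simp)
  have hpos : 0 ≤ geo cs (D₂.prod)⁻¹ (rt cs τ) := by
    refine GGx.pos_aux L hA.sym D₂ (rt cs τ) (fun σ hσ => hrefl σ (by simp [hσ])) hneg.2
      (rt_pos hτ) ?_
    intro σ hσ
    have := hneg.1 σ hσ
    linarith
  have hlen := length_of_pos hτ hpos
  have e1 : cs.length (D₂.prod)⁻¹ = cs.length D₂.prod := cs.length_inv _
  have e2 : cs.length ((D₂.prod)⁻¹ * τ) = cs.length (τ * D₂.prod) := by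
    rw [← cs.length_inv ((D₂.prod)⁻¹ * τ), mul_inv_rev, inv_inv, hτ.inv]
  rw [e1, e2] at hlen
  exact hlen

end Pool.Agent.R600.AK
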