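import Pool.Agent.R600.AK.Stm2

set_option autoImplicit false

/-! SA: the facets are the chains of the factorizations -/

namespace Pool.Agent.R600.AK

open Finset

namespace SAaux

variable {G : Type} [Group G] {n : ℕ} {c : G} {T : Set G} {μ : G → ℕ}

/-- cutting and pasting -/
theorem paste (k g : List G) (hk : FF n c T k) (hg : FF n c T g) (i : ℕ) (hi : i ≤ n)
    (h : (k.drop i).prod = (g.drop i).prod) : FF n c T (k.take i ++ g.drop i) := by
  refine ⟨?_, ?_, ?_⟩
  · rw [List.length_append, List.length_take, List.length_drop, hk.1, hg.1]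
    omega
  · rw [List.prod_append, ← h, ← List.prod_append, List.take_append_drop]
    exact hk.2.1
  · intro t ht
    rcases List.mem_append.mp ht with h1 | h1
    · exact hk.2.2 t (List.mem_of_mem_take h1)
    · exact hg.2.2 t (List.mem_of_mem_drop h1)

theorem paste_drop_ge (k g : List G) (hk : FF n c T k) (i j : ℕ) (hi : i ≤ n) (hij : i ≤ j) :
    (k.take i ++ g.drop i).drop j = g.drop j := by
  have hl : (k.take i).length = i := by
    rw [List.length_take, hk.1]
    omega
  rw [List.drop_append, hl, List.drop_eq_nil_of_le (by rw [hl]; exact hij), List.nil_append,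
    List.drop_drop]
  congr 1
  omega

theorem paste_drop_le (k g : List G) (i j : ℕ)
    (hji : j ≤ i) (hi : i ≤ k.length) (h : (k.drop i).prod = (g.drop i).prod) :
    ((k.take i ++ g.drop i).drop j).prod = (k.drop j).prod := by
  have hl : (k.take i).length = i := by
    rw [List.length_take]
    omega
  rw [List.drop_append, hl, Nat.sub_eq_zero_of_le hji, List.drop_zero, List.prod_append, ← h,
    ← List.prod_append]
  congr 1
  calc (k.take i).drop j ++ k.drop i = (k.take i ++ k.drop i).drop j := by
        rw [List.drop_append, hl, Nat.sub_eq_zero_of_le hji, List.drop_zero]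
    _ = k.drop j := by rw [List.take_append_drop]

theorem exists_idx (h : Sys n c T μ) : ∃ idx : G → ℕ, ∀ f, FF n c T f → ∀ i, i ≤ n →
    idx (f.drop i).prod = i := by
  classical
  refine ⟨fun u => if hu : ∃ f, FF n c T f ∧ ∃ i, i ≤ n ∧ u = (f.drop i).prod then
    hu.choose_spec.2.choose else 0, ?_⟩
  intro f hf i hi
  have hu : ∃ f', FF n c T f' ∧ ∃ j, j ≤ n ∧ (f.drop i).prod = (f'.drop j).prod :=
    ⟨f, hf, i, hi, rfl⟩
  simp only [dif_pos hu]
  have h1 := hu.choose_spec.2.choose_spec
  exact (h.h3 _ _ hf hu.choose_spec.1 i _ hi h1.1 h1.2).symm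

theorem Cf_chain (f : List G) (hf : FF n c T f) : IsCh (XF n c T) (RF n c T) (Cf n f) := by
  classical
  constructor
  · intro x hx
    unfold Cf at hx
    obtain ⟨i, hi, rfl⟩ := Finset.mem_image.mp hx
    rw [Finset.mem_range] at hi
    exact ⟨f, hf, i, by omega, rfl⟩
  · intro x hx y hy
    unfold Cf at hx hy
    obtain ⟨i, hi, rfl⟩ := Finset.mem_image.mp hx
    obtain ⟨j, hj, rfl⟩ := Finset.mem_image.mp hy
    rw [Finset.mem_range] at hi hj
    rcases le_total j i with hij | hij
    · exact Or.inl ⟨f, hf, i, j, by omega, hij, rfl, rfl⟩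
    · exact Or.inr ⟨f, hf, j, i, by omega, hij, rfl, rfl⟩

theorem chain_sub (h : Sys n c T μ) : ∀ (N : ℕ) (s : Finset G), s.card = N →
    IsCh (XF n c T) (RF n c T) s → ∃ f, FF n c T f ∧ s ⊆ Cf n f := by
  classical
  obtain ⟨idx, hidx⟩ := exists_idx h
  have hmemC : ∀ (f : List G), FF n c T f → ∀ x, x ∈ Cf n f ↔ idx x ≤ n ∧ x = (f.drop (idx x)).prod := by
    intro f hf x
    unfold Cf
    rw [Finset.mem_image]
    constructor
    · rintro ⟨i, hi, rfl⟩
      rw [Finset.mem_range] at hi
      rw [hidx f hf i (by omega)]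
      exact ⟨by omega, rfl⟩
    · rintro ⟨h1, h2⟩
      exact ⟨idx x, Finset.mem_range.mpr (by omega), h2.symm⟩
  intro N
  induction N with
  | zero =>
    intro s hs _
    obtain ⟨f, hf⟩ := h.ne
    rw [Finset.card_eq_zero] at hs
    subst hs
    exact ⟨f, hf, Finset.empty_subset _⟩
  | succ N ih =>
    intro s hs hch
    have hne : s.Nonempty := by
      rw [← Finset.card_pos]
      omega
    obtain ⟨m, hm, hmin⟩ := Finset.exists_min_image s idx hne
    have hch' : IsCh (XF n c T) (RF n c T) (s.erase m) :=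
      ⟨fun x hx => hch.1 x (Finset.mem_of_mem_erase hx),
        fun x hx y hy => hch.2 x (Finset.mem_of_mem_erase hx) y (Finset.mem_of_mem_erase hy)⟩
    obtain ⟨g, hg, hgs⟩ := ih (s.erase m) (by rw [Finset.card_erase_of_mem hm]; omega) hch'
    rcases (s.erase m).eq_empty_or_nonempty with he | he
    · obtain ⟨k, hk, i, hi, hmi⟩ := hch.1 m hm
      refine ⟨k, hk, fun x hx => ?_⟩
      have hxm : x = m := by
        by_contra hne'
        have : x ∈ s.erase m := Finset.mem_erase.mpr ⟨hne', hx⟩
        rw [he] at this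
        exact absurd this (Finset.notMem_empty x)
      rw [hxm, hmemC k hk, hmi, hidx k hk i hi]
      exact ⟨hi, rfl⟩
    · obtain ⟨m', hm', hmin'⟩ := Finset.exists_min_image (s.erase m) idx he
      have hm's : m' ∈ s := Finset.mem_of_mem_erase hm'
      -- a list through both
      obtain ⟨k, hk, hk1, hk2, hk3, hk4⟩ : ∃ k, FF n c T k ∧ idx m ≤ n ∧ idx m' ≤ n ∧
          m = (k.drop (idx m)).prod ∧ m' = (k.drop (idx m')).prod := by
        rcases hch.2 m hm m' hm's with ⟨k, hk, i, j, hi, hj, e1, e2⟩ | ⟨k, hk, i, j, hi, hj, e1, e2⟩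
        · have f1 : idx m = i := by rw [e1]; exact hidx k hk i hi
          have f2 : idx m' = j := by rw [e2]; exact hidx k hk j (by omega)
          exact ⟨k, hk, by omega, by omega, by rw [f1]; exact e1, by rw [f2]; exact e2⟩
        · have f1 : idx m' = i := by rw [e1]; exact hidx k hk i hi
          have f2 : idx m = j := by rw [e2]; exact hidx k hk j (by omega)
          exact ⟨k, hk, by omega, by omega, by rw [f2]; exact e2, by rw [f1]; exact e1⟩
      have hg' := (hmemC g hg m').mp (hgs hm')
      have hprod : (k.drop (idx m')).prod = (g.drop (idx m')).prod := by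
        rw [← hk4]
        exact hg'.2
      have hmm' : idx m ≤ idx m' := hmin m' hm's
      have hF := paste k g hk hg (idx m') hk2 hprod
      refine ⟨_, hF, fun x hx => ?_⟩
      rw [hmemC _ hF]
      by_cases hxm : x = m
      · rw [hxm]
        refine ⟨hk1, ?_⟩
        rw [paste_drop_le k g (idx m') (idx m) hmm' (by rw [hk.1]; exact hk2) hprod]
        exact hk3
      · have hx' : x ∈ s.erase m := Finset.mem_erase.mpr ⟨hxm, hx⟩
        have h1 := (hmemC g hg x).mp (hgs hx')
        refine ⟨h1.1, ?_⟩
        rw [paste_drop_ge k g hk (idx m') (idx x) hk2 (hmin' x hx')]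
        exact h1.2

end SAaux

theorem sa : StmSA := by
  classical
  intro G _ n c T μ h s
  constructor
  · rintro ⟨hch, hmax⟩
    obtain ⟨f, hf, hsub⟩ := SAaux.chain_sub h s.card s rfl hch
    exact ⟨f, hf, hmax _ (SAaux.Cf_chain f hf) hsub⟩
  · rintro ⟨f, hf, rfl⟩
    refine ⟨SAaux.Cf_chain f hf, fun t ht hsub => ?_⟩
    obtain ⟨idx, hidx⟩ := SAaux.exists_idx h
    apply Finset.Subset.antisymm _ hsub
    intro x hx
    obtain ⟨g, hg, i, hi, hxi⟩ := ht.1 x hx
    have hx1 : idx x = i := by rw [hxi]; exact hidx g hg i hi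
    have hy : (f.drop i).prod ∈ Cf n f := by
      unfold Cf
      exact Finset.mem_image.mpr ⟨i, Finset.mem_range.mpr (by omega), rfl⟩
    have hy1 : idx (f.drop i).prod = i := hidx f hf i hi
    have hxy : x = (f.drop i).prod := by
      rcases ht.2 x hx _ (hsub hy) with ⟨k, hk, a, b, ha, hb, e1, e2⟩ | ⟨k, hk, a, b, ha, hb, e1, e2⟩
      · have f1 : idx x = a := by rw [e1]; exact hidx k hk a ha
        have f2 : idx (f.drop i).prod = b := by rw [e2]; exact hidx k hk b (by omega)
        have : a = b := by omega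
        rw [e1, e2, this]
      · have f1 : idx (f.drop i).prod = a := by rw [e1]; exact hidx k hk a ha
        have f2 : idx x = b := by rw [e2]; exact hidx k hk b (by omega)
        have : a = b := by omega
        rw [e2, e1, this]
    rw [hxy]
    exact hy

end Pool.Agent.R600.AK
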