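import Pool.Agent.R600.AK.Stm2

set_option autoImplicit false

/-! Project AK2 (MP_20db89_co), piece SB: the exchange step of the shelling. -/

namespace Pool.Agent.R600.AK

namespace SBaux

theorem pw_of_adj {G : Type} (μ : G → ℕ) : ∀ D : List G,
    (∀ P a b Q, D = P ++ a :: b :: Q → μ a < μ b) → D.Pairwise (fun a b => μ a < μ b) := by
  intro D
  induction D with
  | nil => intro _; exact List.Pairwise.nil
  | cons d D ih =>
    intro h
    have hD : D.Pairwise (fun a b => μ a < μ b) :=
      ih (fun P a b Q e => h (d :: P) a b Q (by rw [e]; rfl))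
    refine List.Pairwise.cons ?_ hD
    intro z hz
    cases D with
    | nil => cases hz
    | cons e E =>
      have h1 : μ d < μ e := h [] d e E rfl
      rcases List.mem_cons.1 hz with rfl | hz
      · exact h1
      · exact h1.trans ((List.pairwise_cons.1 hD).1 z hz)

theorem exists_adj {G : Type} (μ : G → ℕ) (D : List G)
    (h : ¬ D.Pairwise (fun a b => μ a < μ b)) :
    ∃ P a b Q, D = P ++ a :: b :: Q ∧ ¬ μ a < μ b := by
  by_contra hc
  apply h
  apply pw_of_adj
  intro P a b Q e
  by_contra hn
  exact hc ⟨P, a, b, Q, e, hn⟩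

/-- dropping from `L ++ x :: y :: R` -/
theorem drop_prod {G : Type} [Group G] (L R : List G) (x y a b : G) (hxy : x * y = a * b)
    (i : ℕ) (hi : i ≠ L.length + 1) :
    ((L ++ x :: y :: R).drop i).prod = ((L ++ a :: b :: R).drop i).prod := by
  rcases Nat.lt_or_ge L.length i with h | h
  · obtain ⟨k, rfl⟩ : ∃ k, i = L.length + 2 + k := ⟨i - (L.length + 2), by omega⟩
    have e1 : (L ++ x :: y :: R).drop (L.length + 2 + k) = R.drop k := by
      rw [show L.length + 2 + k = L.length + (2 + k) by omega, ← List.drop_drop,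
        List.drop_left, show 2 + k = k + 1 + 1 by omega]
      rfl
    have e2 : (L ++ a :: b :: R).drop (L.length + 2 + k) = R.drop k := by
      rw [show L.length + 2 + k = L.length + (2 + k) by omega, ← List.drop_drop,
        List.drop_left, show 2 + k = k + 1 + 1 by omega]
      rfl
    rw [e1, e2]
  · rw [List.drop_append_of_le_length h, List.drop_append_of_le_length h]
    simp only [List.prod_append, List.prod_cons]
    rw [← mul_assoc x y, hxy, mul_assoc a b]

theorem drop_mid {G : Type} (L R : List G) (x y : G) :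
    (L ++ x :: y :: R).drop (L.length + 1) = y :: R := by
  rw [← List.drop_drop, List.drop_left]
  rfl

end SBaux

open SBaux

theorem sb : StmSB := by
  classical
  intro G _ n c T μ h f f' hf hf' A A' C s t hfA hfA' hst
  have hex : ∃ q, 1 ≤ q ∧ ∃ A₂ D A₂' D' : List G, f = A₂ ++ (D ++ C) ∧ f' = A₂' ++ (D' ++ C) ∧
      D.length = q ∧ D'.length = q ∧ D.prod = D'.prod := by
    refine ⟨A.length + 1, by omega, [], A ++ [s], [], A' ++ [t], by simp [hfA], by simp [hfA'],
      by simp, ?_, ?_⟩
    · have h1 := hf.1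
      have h2 := hf'.1
      rw [hfA] at h1
      rw [hfA'] at h2
      simp only [List.length_append, List.length_cons, List.length_nil] at h1 h2 ⊢
      omega
    · have h1 := hf.2.1
      have h2 := hf'.2.1
      rw [hfA, List.prod_append, List.prod_cons, ← mul_assoc] at h1
      rw [hfA', List.prod_append, List.prod_cons, ← mul_assoc] at h2
      have h3 := mul_right_cancel (h1.trans h2.symm)
      simpa using h3
  obtain ⟨q, ⟨hq1, A₂, D, A₂', D', e, e', hD, hD', hDD⟩, hmin⟩ :=
    (⟨Nat.find hex, Nat.find_spec hex, fun m hm => Nat.find_min hex hm⟩ :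
      ∃ q, (1 ≤ q ∧ ∃ A₂ D A₂' D' : List G, f = A₂ ++ (D ++ C) ∧ f' = A₂' ++ (D' ++ C) ∧
      D.length = q ∧ D'.length = q ∧ D.prod = D'.prod) ∧ ∀ m < q, ¬ (1 ≤ m ∧
      ∃ A₂ D A₂' D' : List G, f = A₂ ++ (D ++ C) ∧ f' = A₂' ++ (D' ++ C) ∧
      D.length = m ∧ D'.length = m ∧ D.prod = D'.prod))
  have hlen : A₂.length = A₂'.length := by
    have h1 := hf.1
    have h2 := hf'.1
    rw [e] at h1
    rw [e'] at h2
    simp only [List.length_append] at h1 h2
    omega
  -- last letters
  obtain ⟨D₀, hD₀⟩ : ∃ D₀, D = D₀ ++ [s] := by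
    have h1 : A₂ ++ D = A ++ [s] := by
      have h2 : (A₂ ++ D) ++ C = (A ++ [s]) ++ C := by
        rw [List.append_assoc, ← e, hfA]; simp
      exact List.append_cancel_right h2
    have hne : D ≠ [] := by
      rintro rfl
      simp at hD
      omega
    refine ⟨D.dropLast, ?_⟩
    have h3 : D.getLast hne = s := by
      have h4 : (A₂ ++ D).getLast (by simp [hne]) = D.getLast hne :=
        List.getLast_append_of_ne_nil _ hne
      rw [← h4]
      simp only [h1]
      simp
    rw [← h3]
    exact (List.dropLast_append_getLast hne).symm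
  obtain ⟨D₀', hD₀'⟩ : ∃ D₀', D' = D₀' ++ [t] := by
    have h1 : A₂' ++ D' = A' ++ [t] := by
      have h2 : (A₂' ++ D') ++ C = (A' ++ [t]) ++ C := by
        rw [List.append_assoc, ← e', hfA']; simp
      exact List.append_cancel_right h2
    have hne : D' ≠ [] := by
      rintro rfl
      simp at hD'
      omega
    refine ⟨D'.dropLast, ?_⟩
    have h3 : D'.getLast hne = t := by
      have h4 : (A₂' ++ D').getLast (by simp [hne]) = D'.getLast hne :=
        List.getLast_append_of_ne_nil _ hne
      rw [← h4]
      simp only [h1]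
      simp
    rw [← h3]
    exact (List.dropLast_append_getLast hne).symm
  -- `D'` is not increasing
  have hninc : ¬ D'.Pairwise (fun a b => μ a < μ b) := by
    intro hinc
    have hF1 : FF n c T (A₂' ++ (D₀' ++ [t]) ++ C) := by
      rw [← hD₀', List.append_assoc, ← e']; exact hf'
    have hF2 : FF n c T (A₂' ++ (D₀ ++ [s]) ++ C) := by
      rw [← hD₀]
      refine ⟨?_, ?_, ?_⟩
      · have h1 := hf.1
        rw [e] at h1
        simp only [List.length_append] at h1 ⊢
        omega
      · have h2 := hf'.2.1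
        rw [e'] at h2
        simp only [List.prod_append] at h2 ⊢
        rw [hDD, mul_assoc]
        exact h2
      · intro z hz
        simp only [List.mem_append] at hz
        rcases hz with (hz | hz) | hz
        · exact hf'.2.2 z (by rw [e']; simp [hz])
        · exact hf.2.2 z (by rw [e]; simp [hz])
        · exact hf.2.2 z (by rw [e]; simp [hz])
    have := h.h2 _ _ _ _ _ _ hF1 hF2 (by rw [← hD₀']; exact hinc)
    omega
  obtain ⟨P, a, b, Q, hPQ, hab⟩ := exists_adj μ D' hninc
  have e'' : f' = (A₂' ++ P) ++ a :: b :: (Q ++ C) := by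
    rw [e', hPQ]; simp
  have haT : a ∈ T := hf'.2.2 a (by rw [e'']; simp)
  have hbT : b ∈ T := hf'.2.2 b (by rw [e'']; simp)
  have hne : a ≠ b := by
    rintro rfl
    exact h.h0 (A₂' ++ P) a (Q ++ C) (by rw [← e'']; exact hf')
  have hba : μ b < μ a := by
    have : μ a ≠ μ b := fun hh => hne (h.inj a haT b hbT hh)
    omega
  obtain ⟨x, hxT, y, hyT, hxy, hby⟩ := h.h1 (A₂' ++ P) a b (Q ++ C) (by rw [← e'']; exact hf') hba
  have hF : FF n c T ((A₂' ++ P) ++ x :: y :: (Q ++ C)) := by
    refine ⟨?_, ?_, ?_⟩
    · have h1 := hf'.1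
      rw [e''] at h1
      simp only [List.length_append, List.length_cons] at h1 ⊢
      exact h1
    · have h2 := hf'.2.1
      rw [e'', List.prod_append, List.prod_cons, List.prod_cons] at h2
      rw [List.prod_append, List.prod_cons, List.prod_cons, ← mul_assoc x y, hxy,
        mul_assoc a b]
      exact h2
    · intro z hz
      rcases List.mem_append.1 hz with hz | hz
      · exact hf'.2.2 z (by rw [e'']; exact List.mem_append.2 (Or.inl hz))
      · rcases List.mem_cons.1 hz with rfl | hz
        · exact hxT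
        · rcases List.mem_cons.1 hz with rfl | hz
          · exact hyT
          · exact hf'.2.2 z (by
              rw [e'']
              exact List.mem_append.2 (Or.inr (List.mem_cons_of_mem _
                (List.mem_cons_of_mem _ hz))))
  have hk : (A₂' ++ P).length + 1 ≤ n := by
    have h1 := hf'.1
    rw [e''] at h1
    simp only [List.length_append, List.length_cons] at h1 ⊢
    omega
  have hmem : ∀ (g : List G) (z : G), z ∈ Cf n g ↔ ∃ i, i ≤ n ∧ (g.drop i).prod = z := by
    intro g z
    unfold Cf
    simp only [Finset.mem_image, Finset.mem_range]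
    constructor
    · rintro ⟨i, hi, hz⟩
      exact ⟨i, by omega, hz⟩
    · rintro ⟨i, hi, hz⟩
      exact ⟨i, by omega, hz⟩
  have hdr : ∀ i, i ≠ (A₂' ++ P).length + 1 →
      (((A₂' ++ P) ++ x :: y :: (Q ++ C)).drop i).prod = (f'.drop i).prod := by
    intro i hi
    rw [e'']
    exact drop_prod _ _ _ _ _ _ hxy i hi
  have hk' : (f'.drop ((A₂' ++ P).length + 1)).prod = (b :: (Q ++ C)).prod := by
    rw [e'', drop_mid]
  have hk'' : (((A₂' ++ P) ++ x :: y :: (Q ++ C)).drop ((A₂' ++ P).length + 1)).prod =
      (y :: (Q ++ C)).prod := by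
    rw [drop_mid]
  refine ⟨(A₂' ++ P) ++ x :: y :: (Q ++ C), hF,
    ⟨(A₂' ++ P) ++ [x], (A₂' ++ P) ++ [a], Q ++ C, b, y, by simp, by rw [e'']; simp, hby⟩,
    (b :: (Q ++ C)).prod, ?_, ?_, ?_⟩
  · rw [hmem]
    exact ⟨_, hk, hk'⟩
  · ext z
    rw [Finset.mem_inter, Finset.mem_erase, hmem, hmem]
    constructor
    · rintro ⟨⟨i, hi, hiz⟩, ⟨j, hj, hjz⟩⟩
      refine ⟨?_, ⟨j, hj, hjz⟩⟩
      intro hz
      have hij : i = j := h.h3 _ _ hF hf' i j hi hj (hiz.trans hjz.symm)
      have hjk : j = (A₂' ++ P).length + 1 :=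
        h.h3 _ _ hf' hf' j _ hj hk (by rw [hjz, hk', hz])
      subst hij
      subst hjk
      rw [hk''] at hiz
      rw [hz, List.prod_cons, List.prod_cons] at hiz
      have : y = b := mul_right_cancel hiz
      rw [this] at hby
      omega
    · rintro ⟨hz, ⟨j, hj, hjz⟩⟩
      refine ⟨⟨j, hj, ?_⟩, ⟨j, hj, hjz⟩⟩
      rw [hdr j, hjz]
      rintro rfl
      exact hz (by rw [← hjz, hk'])
  · intro z hz
    rw [Finset.mem_inter, hmem, hmem] at hz
    rw [Finset.mem_inter, hmem, hmem]
    obtain ⟨⟨i, hi, hiz⟩, ⟨j, hj, hjz⟩⟩ := hz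
    refine ⟨⟨j, hj, ?_⟩, ⟨j, hj, hjz⟩⟩
    rw [hdr j, hjz]
    intro hjk
    have hij : i = j := h.h3 _ _ hf hf' i j hi hj (hiz.trans hjz.symm)
    subst hij
    subst hjk
    -- contradiction to the minimality of `q`
    have hf1 : f.drop ((A₂' ++ P).length + 1) = D.drop (P.length + 1) ++ C := by
      rw [e, show (A₂' ++ P).length + 1 = A₂.length + (P.length + 1) by
        rw [List.length_append, hlen]; omega, ← List.drop_drop, List.drop_left,
        List.drop_append_of_le_length]
      rw [hD, ← hD', hPQ]
      simp only [List.length_append, List.length_cons]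
      omega
    rw [hf1] at hiz
    rw [hk'] at hjz
    have hprod : (D.drop (P.length + 1)).prod = (b :: Q).prod := by
      have h5 := hiz.trans hjz.symm
      rw [List.prod_append, List.prod_cons, List.prod_append, ← mul_assoc] at h5
      rw [List.prod_cons]
      exact mul_right_cancel h5
    refine hmin (Q.length + 1) ?_ ⟨by omega, A₂ ++ D.take (P.length + 1),
      D.drop (P.length + 1), A₂' ++ (P ++ [a]), b :: Q, ?_, ?_, ?_, ?_, hprod⟩
    · rw [← hD', hPQ]
      simp only [List.length_append, List.length_cons]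
      omega
    · rw [e, List.append_assoc, ← List.append_assoc (D.take (P.length + 1)),
        List.take_append_drop]
    · rw [e'']
      simp
    · rw [List.length_drop, hD, ← hD', hPQ]
      simp only [List.length_append, List.length_cons]
      omega
    · simp

end Pool.Agent.R600.AK
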