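import Pool.Agent.R600.AK.Stm2
import Pool.Agent.R600.AK.CD

/-! Project AK2 (MP_20db89_co), piece SC. -/

set_option autoImplicit false

namespace Pool.Agent.R600.AK

namespace SEAux

section lists

variable {G : Type}

lemma first_diff : ∀ (l l' : List G), l.length = l'.length → l ≠ l' →
    ∃ (C : List G) (s t : G) (A A' : List G), l = C ++ s :: A ∧ l' = C ++ t :: A' ∧ s ≠ t := by
  intro l
  induction l with
  | nil =>
    intro l' h hne
    cases l' with
    | nil => exact absurd rfl hne
    | cons _ _ => simp at h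
  | cons x l ih =>
    intro l' h hne
    cases l' with
    | nil => simp at h
    | cons y l' =>
      by_cases hxy : x = y
      · subst hxy
        have h1 : l.length = l'.length := by simpa using h
        have h2 : l ≠ l' := fun e => hne (by rw [e])
        obtain ⟨C, s, t, A, A', e1, e2, e3⟩ := ih l' h1 h2
        exact ⟨x :: C, s, t, A, A', by rw [e1]; rfl, by rw [e2]; rfl, e3⟩
      · exact ⟨[], x, y, l, l', rfl, rfl, hxy⟩

lemma last_diff (l l' : List G) (h : l.length = l'.length) (hne : l ≠ l') :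
    ∃ (A A' C : List G) (s t : G), l = A ++ s :: C ∧ l' = A' ++ t :: C ∧ s ≠ t := by
  obtain ⟨C, s, t, A, A', e1, e2, e3⟩ := first_diff l.reverse l'.reverse (by simpa using h)
    (fun e => hne (List.reverse_injective e))
  refine ⟨A.reverse, A'.reverse, C.reverse, s, t, ?_, ?_, e3⟩
  · have := congrArg List.reverse e1
    simpa using this
  · have := congrArg List.reverse e2
    simpa using this

/-- the code of a list -/
def key (N : ℕ) (μ : G → ℕ) (f : List G) : ℕ := Nat.ofDigits N (f.map μ)

lemma key_lt (N : ℕ) (hN : 1 < N) (μ : G → ℕ) (A A' C : List G) (s t : G)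
    (hl : A.length = A'.length) (hA : ∀ x ∈ A', μ x < N) (hst : μ t < μ s) :
    key N μ (A' ++ t :: C) < key N μ (A ++ s :: C) := by
  unfold key
  rw [List.map_append, List.map_append, Nat.ofDigits_append, Nat.ofDigits_append,
    List.map_cons, List.map_cons, Nat.ofDigits_cons, Nat.ofDigits_cons, List.length_map,
    List.length_map, hl]
  have h1 : Nat.ofDigits N (A'.map μ) < N ^ (A'.map μ).length := by
    refine Nat.ofDigits_lt_base_pow_length hN ?_
    intro x hx
    obtain ⟨y, hy, rfl⟩ := List.mem_map.1 hx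
    exact hA y hy
  rw [List.length_map] at h1
  have h2 : N ^ A'.length * ((μ t + N * Nat.ofDigits N (C.map μ)) + 1) ≤
      N ^ A'.length * (μ s + N * Nat.ofDigits N (C.map μ)) :=
    Nat.mul_le_mul_left _ (by omega)
  rw [Nat.mul_add, Nat.mul_one] at h2
  try simp only [Nat.cast_id]
  omega

end lists

end SEAux

open SEAux Classical in
theorem se (ha : StmSA) (hb : StmSB) : StmSC := by
  intro G _ n c T μ hS
  obtain ⟨N, hN1, hN⟩ : ∃ N, 1 < N ∧ ∀ t ∈ T, μ t < N := by
    obtain ⟨M, hM⟩ := (hS.fin.image μ).bddAbove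
    refine ⟨M + 2, by omega, fun t ht => ?_⟩
    have : μ t ≤ M := hM ⟨t, ht, rfl⟩
    omega
  have hfin : {f : List G | FF n c T f}.Finite := by
    have : Finite T := hS.fin
    refine ((List.finite_length_eq T n).image (List.map (fun x : T => (x : G)))).subset ?_
    intro f hf
    obtain ⟨h1, h2, h3⟩ := hf
    lift f to List T using h3
    exact ⟨f, by simpa using h1, rfl⟩
  -- comparison
  have klt : ∀ f f' A A' C s t, FF n c T f → FF n c T f' → f = A ++ s :: C → f' = A' ++ t :: C →
      μ t < μ s → key N μ f' < key N μ f := by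
    intro f f' A A' C s t hf hf' e1 e2 hst
    have hl : A.length = A'.length := by
      have h1 := hf.1
      have h2 := hf'.1
      rw [e1] at h1
      rw [e2] at h2
      simp at h1 h2
      omega
    rw [e1, e2]
    refine key_lt N hN1 μ A A' C s t hl (fun x hx => hN x (hf'.2.2 x ?_)) hst
    rw [e2]
    exact List.mem_append_left _ hx
  have hcmp : ∀ f f', FF n c T f → FF n c T f' → f ≠ f' →
      ∃ (A A' C : List G) (s t : G), f = A ++ s :: C ∧ f' = A' ++ t :: C ∧ s ≠ t ∧
        μ s ≠ μ t := by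
    intro f f' hf hf' hne
    obtain ⟨A, A', C, s, t, e1, e2, e3⟩ := last_diff f f' (by rw [hf.1, hf'.1]) hne
    refine ⟨A, A', C, s, t, e1, e2, e3, fun h => e3 ?_⟩
    refine hS.inj s (hf.2.2 s ?_) t (hf'.2.2 t ?_) h
    · rw [e1]; simp
    · rw [e2]; simp
  have kinj : ∀ f f', FF n c T f → FF n c T f' → key N μ f = key N μ f' → f = f' := by
    intro f f' hf hf' he
    by_contra hne
    obtain ⟨A, A', C, s, t, e1, e2, e3, e4⟩ := hcmp f f' hf hf' hne
    rcases lt_or_gt_of_ne e4 with h | h
    · have := klt f' f A' A C t s hf' hf e2 e1 h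
      omega
    · have := klt f f' A A' C s t hf hf' e1 e2 h
      omega
  have kdiff : ∀ f f', FF n c T f → FF n c T f' → key N μ f' < key N μ f →
      ∃ (A A' C : List G) (s t : G), f = A ++ s :: C ∧ f' = A' ++ t :: C ∧ μ t < μ s := by
    intro f f' hf hf' hlt
    have hne : f ≠ f' := fun e => by rw [e] at hlt; omega
    obtain ⟨A, A', C, s, t, e1, e2, e3, e4⟩ := hcmp f f' hf hf' hne
    refine ⟨A, A', C, s, t, e1, e2, ?_⟩
    rcases lt_or_gt_of_ne e4 with h | h
    · have := klt f' f A' A C t s hf' hf e2 e1 h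
      omega
    · exact h
  have hCinj : ∀ f f', FF n c T f → FF n c T f' → Cf n f = Cf n f' → f = f' := by
    intro f f' hf hf' he
    by_contra hne
    obtain ⟨A, A', C, s, t, e1, e2, e3, e4⟩ := hcmp f f' hf hf' hne
    have hl1 : A.length < n := by
      have h1 := hf.1
      rw [e1] at h1
      simp at h1
      omega
    have hl : A.length = A'.length := by
      have h1 := hf.1
      have h2 := hf'.1
      rw [e1] at h1
      rw [e2] at h2
      simp at h1 h2
      omega
    have h1 : (f.drop A.length).prod ∈ Cf n f := by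
      unfold Cf
      exact Finset.mem_image_of_mem _ (Finset.mem_range.2 (by omega))
    rw [he] at h1
    unfold Cf at h1
    obtain ⟨j, hj, hje⟩ := Finset.mem_image.1 h1
    rw [Finset.mem_range] at hj
    have h2 := hS.h3 f' f hf' hf j A.length (by omega) (by omega) hje
    rw [h2, e1, e2] at hje
    rw [List.drop_left, hl, List.drop_left, List.prod_cons, List.prod_cons] at hje
    exact e3 (mul_right_cancel hje).symm
  set K : Finset ℕᵒᵈ := hfin.toFinset.image (fun f => OrderDual.toDual (key N μ f)) with hK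
  have hKg : ∀ i : Fin K.card, ∃ f, FF n c T f ∧
      OrderDual.toDual (key N μ f) = K.orderEmbOfFin rfl i := by
    intro i
    have h1 : K.orderEmbOfFin rfl i ∈
      hfin.toFinset.image (fun f => OrderDual.toDual (key N μ f)) := K.orderEmbOfFin_mem rfl i
    obtain ⟨f, hf, hfe⟩ := Finset.mem_image.1 h1
    exact ⟨f, by simpa using hf, hfe⟩
  choose g hg1 hg2 using hKg
  have hidx : ∀ f, FF n c T f → ∃ i, g i = f := by
    intro f hf
    have h3 : OrderDual.toDual (key N μ f) ∈ (K : Set ℕᵒᵈ) := by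
      rw [hK, Finset.mem_coe]
      exact Finset.mem_image_of_mem _ (by simpa using hf)
    rw [← Finset.range_orderEmbOfFin K rfl] at h3
    obtain ⟨i, hi⟩ := h3
    refine ⟨i, kinj _ _ (hg1 i) hf ?_⟩
    have h4 := hg2 i
    rw [hi] at h4
    exact OrderDual.toDual_inj.1 h4
  refine ⟨K.card, fun i => Cf n (g i), ?_, ?_, ?_⟩
  · intro i j hij
    have h1 := hCinj _ _ (hg1 i) (hg1 j) hij
    have h2 : K.orderEmbOfFin rfl i = K.orderEmbOfFin rfl j := by
      rw [← hg2 i, ← hg2 j, h1]
    exact (K.orderEmbOfFin rfl).injective h2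
  · intro s
    rw [ha G n c T μ hS s]
    constructor
    · rintro ⟨f, hf, rfl⟩
      obtain ⟨i, hi⟩ := hidx f hf
      exact ⟨i, by simp only [hi]⟩
    · rintro ⟨i, rfl⟩
      exact ⟨g i, hg1 i, rfl⟩
  · intro i j hij
    have h1 : K.orderEmbOfFin rfl i < K.orderEmbOfFin rfl j :=
      (K.orderEmbOfFin rfl).strictMono hij
    rw [← hg2 i, ← hg2 j, OrderDual.toDual_lt_toDual] at h1
    obtain ⟨A, A', C, s, t, e1, e2, e3⟩ := kdiff _ _ (hg1 i) (hg1 j) h1
    obtain ⟨f'', hf'', ⟨P, P', Q, a, b, e4, e5, e6⟩, x, hx, hx1, hx2⟩ :=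
      hb G n c T μ hS _ _ (hg1 i) (hg1 j) A A' C s t e1 e2 e3
    obtain ⟨l, hl⟩ := hidx f'' hf''
    have h5 : key N μ (g j) < key N μ f'' := klt _ _ P P' Q b a hf'' (hg1 j) e4 e5 e6
    have h6 : l < j := by
      rw [← (K.orderEmbOfFin rfl).lt_iff_lt, ← hg2 l, ← hg2 j, OrderDual.toDual_lt_toDual, hl]
      exact h5
    refine ⟨l, h6, x, hx, ?_, ?_⟩
    · simp only [hl]
      exact CDAux.tr1 _ _ _ _ _ _ hx1
    · simp only [hl]
      exact CDAux.tr2 _ _ _ _ _ _ hx2

end Pool.Agent.R600.AK
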