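import Pool.Agent.R600.AK.Stm2

set_option autoImplicit false

/-! # AK2-SO: sorting by the lexicographic maximum -/

namespace Pool.Agent.R600.AK

namespace SOAux

theorem split {α : Type} (μ : α → ℕ) : ∀ D : List α, ¬ D.Pairwise (fun a b => μ a < μ b) →
    ∃ P a b Q, D = P ++ a :: b :: Q ∧ ¬ μ a < μ b
  | [], h => absurd List.Pairwise.nil h
  | [a], h => absurd (List.pairwise_singleton _ a) h
  | a :: b :: Q, h => by
    by_cases hab : μ a < μ b
    · have h' : ¬ (b :: Q).Pairwise (fun a b => μ a < μ b) := by
        intro hp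
        apply h
        rw [List.pairwise_cons]
        refine ⟨?_, hp⟩
        intro c hc
        rcases List.mem_cons.1 hc with rfl | hc
        · exact hab
        · exact hab.trans ((List.pairwise_cons.1 hp).1 c hc)
      obtain ⟨P, x, y, R, hR, hxy⟩ := split μ (b :: Q) h'
      exact ⟨a :: P, x, y, R, by rw [hR]; rfl, hxy⟩
    · exact ⟨[], a, b, Q, rfl, hab⟩

theorem val_lt (β : ℕ) (P Q : List ℕ) (a b x y : ℕ) (ha : a < β) (h : b < y) :
    Nat.ofDigits β (P ++ a :: b :: Q) < Nat.ofDigits β (P ++ x :: y :: Q) := by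
  rw [Nat.ofDigits_append, Nat.ofDigits_append, Nat.ofDigits_cons, Nat.ofDigits_cons,
    Nat.ofDigits_cons, Nat.ofDigits_cons]
  have hβ : 0 < β := by omega
  have hp : 0 < β ^ P.length := Nat.pow_pos hβ
  apply Nat.add_lt_add_left
  apply Nat.mul_lt_mul_of_pos_left _ hp
  have h1 : β * (b + 1) ≤ β * y := Nat.mul_le_mul_left β h
  have h2 : β * (b + β * Nat.ofDigits β Q) = β * b + β * (β * Nat.ofDigits β Q) := by ring
  have h3 : β * (y + β * Nat.ofDigits β Q) = β * y + β * (β * Nat.ofDigits β Q) := by ring
  have h4 : β * (b + 1) = β * b + β := by ring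
  omega

theorem main {G : Type} [Group G] {n : ℕ} {c : G} {T : Set G} {μ : G → ℕ} (hS : Sys n c T μ)
    (A C : List G) (β : ℕ) (hβ : 1 < β) (hT : ∀ t ∈ T, μ t < β) : ∀ (N : ℕ) (D : List G),
    FF n c T (A ++ D ++ C) → β ^ D.length ≤ N + Nat.ofDigits β (D.map μ) →
    ∃ D' : List G, D'.Pairwise (fun a b => μ a < μ b) ∧ D'.prod = D.prod ∧ D'.length = D.length ∧
      FF n c T (A ++ D' ++ C) := by
  intro N
  induction N with
  | zero =>
    intro D hD hN
    exfalso
    have h1 : Nat.ofDigits β (D.map μ) < β ^ (D.map μ).length := by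
      apply Nat.ofDigits_lt_base_pow_length hβ
      intro x hx
      rw [List.mem_map] at hx
      obtain ⟨t, ht, rfl⟩ := hx
      exact hT t (hD.2.2 t (by simp [ht]))
    rw [List.length_map] at h1
    omega
  | succ N ih =>
    intro D hD hN
    by_cases hp : D.Pairwise (fun a b => μ a < μ b)
    · exact ⟨D, hp, rfl, rfl, hD⟩
    · obtain ⟨P, a, b, Q, rfl, hab⟩ := split μ D hp
      have e1 : A ++ (P ++ a :: b :: Q) ++ C = (A ++ P) ++ a :: b :: (Q ++ C) := by simp
      rw [e1] at hD
      have ha : a ∈ T := hD.2.2 a (by simp)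
      have hb : b ∈ T := hD.2.2 b (by simp)
      have hne : a ≠ b := by
        rintro rfl
        exact hS.h0 _ _ _ hD
      have hlt : μ b < μ a := by
        rcases lt_trichotomy (μ a) (μ b) with h | h | h
        · exact absurd h hab
        · exact absurd (hS.inj a ha b hb h) hne
        · exact h
      obtain ⟨x, hx, y, hy, hxy, hby⟩ := hS.h1 _ _ _ _ hD hlt
      have hpr : ∀ g : G, x * (y * g) = a * (b * g) := by
        intro g
        rw [← mul_assoc, hxy, mul_assoc]
      have hF : FF n c T (A ++ (P ++ x :: y :: Q) ++ C) := by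
        refine ⟨?_, ?_, ?_⟩
        · rw [← hD.1]
          simp
        · rw [← hD.2.1]
          simp only [List.prod_append, List.prod_cons, mul_assoc, hpr]
        · intro t ht
          simp only [List.mem_append, List.mem_cons] at ht
          rcases ht with (h | h | h | h | h) | h
          · exact hD.2.2 t (by simp [h])
          · exact hD.2.2 t (by simp [h])
          · exact h ▸ hx
          · exact h ▸ hy
          · exact hD.2.2 t (by simp [h])
          · exact hD.2.2 t (by simp [h])
      obtain ⟨D', h1, h2, h3, h4⟩ := ih (P ++ x :: y :: Q) hF (by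
        have hv := val_lt β (P.map μ) (Q.map μ) (μ a) (μ b) (μ x) (μ y) (hT a ha) hby
        simp only [List.map_append, List.map_cons, List.length_append, List.length_cons] at hN ⊢
        omega)
      refine ⟨D', h1, ?_, ?_, h4⟩
      · rw [h2]
        simp only [List.prod_append, List.prod_cons, hpr]
      · rw [h3]
        simp

end SOAux

theorem so : StmSO := by
  intro G _ n c T μ hS A D C hD
  obtain ⟨β, hβ⟩ := (hS.fin.image μ).bddAbove
  refine SOAux.main hS A C (β + 2) (by omega) ?_ ((β + 2) ^ D.length) D hD (Nat.le_add_right _ _)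
  intro t ht
  have := hβ (Set.mem_image_of_mem μ ht)
  omega

end Pool.Agent.R600.AK
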