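import Pool.Agent.R600.AK.Stm

/-! Project AK (MP_20db89_co), piece TR. -/

set_option autoImplicit false

namespace Pool.Agent.R600.AK

open Finset

namespace TRAux

open Classical

variable {α β : Type} {X : Set α} {R : α → α → Prop} {Y : Set β} {S : β → β → Prop} {φ : α → β}

lemma isCh_iff (hφ : Function.Injective φ) (hY : Y = φ '' X)
    (hR : ∀ x ∈ X, ∀ y ∈ X, S (φ x) (φ y) ↔ R x y) (s : Finset α) :
    IsCh X R s ↔ IsCh Y S (s.image φ) := by
  constructor
  · rintro ⟨h1, h2⟩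
    refine ⟨?_, ?_⟩
    · intro y hy
      obtain ⟨x, hx, rfl⟩ := Finset.mem_image.1 hy
      rw [hY]
      exact ⟨x, h1 x hx, rfl⟩
    · intro y hy y' hy'
      obtain ⟨x, hx, rfl⟩ := Finset.mem_image.1 hy
      obtain ⟨x', hx', rfl⟩ := Finset.mem_image.1 hy'
      rw [hR x (h1 x hx) x' (h1 x' hx'), hR x' (h1 x' hx') x (h1 x hx)]
      exact h2 x hx x' hx'
  · rintro ⟨h1, h2⟩
    have h3 : ∀ x ∈ s, x ∈ X := by
      intro x hx
      have := h1 _ (Finset.mem_image_of_mem φ hx)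
      rw [hY] at this
      obtain ⟨x', hx', he⟩ := this
      exact hφ he ▸ hx'
    refine ⟨h3, ?_⟩
    intro x hx y hy
    rw [← hR x (h3 x hx) y (h3 y hy), ← hR y (h3 y hy) x (h3 x hx)]
    exact h2 _ (Finset.mem_image_of_mem φ hx) _ (Finset.mem_image_of_mem φ hy)

lemma exists_pre (hY : Y = φ '' X) {t : Finset β} (h : IsCh Y S t) :
    ∃ s : Finset α, s.image φ = t := by
  have h1 : (t : Set β) ⊆ φ '' X := by
    intro y hy
    rw [← hY]
    exact h.1 y hy
  obtain ⟨s, -, hs⟩ := Finset.subset_set_image_iff.1 h1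
  exact ⟨s, hs⟩

lemma isFacet_iff (hφ : Function.Injective φ) (hY : Y = φ '' X)
    (hR : ∀ x ∈ X, ∀ y ∈ X, S (φ x) (φ y) ↔ R x y) (s : Finset α) :
    IsFacet X R s ↔ IsFacet Y S (s.image φ) := by
  constructor
  · rintro ⟨h1, h2⟩
    refine ⟨(isCh_iff hφ hY hR s).1 h1, ?_⟩
    intro t ht hst
    obtain ⟨s', rfl⟩ := exists_pre hY ht
    rw [h2 s' ((isCh_iff hφ hY hR s').2 ht) ((Finset.image_subset_image_iff hφ).1 hst)]
  · rintro ⟨h1, h2⟩
    refine ⟨(isCh_iff hφ hY hR s).2 h1, ?_⟩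
    intro t ht hst
    exact Finset.image_injective hφ
      (h2 _ ((isCh_iff hφ hY hR t).1 ht) (Finset.image_subset_image hst))

end TRAux

open TRAux Classical in
theorem tr : StmTr := by
  intro α β X R Y S φ hφ hY hR
  rintro ⟨m, F, hF, hfac, hsh⟩
  refine ⟨m, fun i => (F i).image φ, (Finset.image_injective hφ).comp hF, ?_, ?_⟩
  · intro t
    constructor
    · intro ht
      obtain ⟨s, rfl⟩ := exists_pre hY ht.1
      obtain ⟨i, rfl⟩ := (hfac s).1 ((isFacet_iff hφ hY hR s).2 ht)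
      exact ⟨i, rfl⟩
    · rintro ⟨i, rfl⟩
      exact (isFacet_iff hφ hY hR _).1 ((hfac _).2 ⟨i, rfl⟩)
  · intro i j hij
    obtain ⟨l, hl, x, hx, h1, h2⟩ := hsh i j hij
    refine ⟨l, hl, φ x, Finset.mem_image_of_mem φ hx, ?_, ?_⟩
    · show (F l).image φ ∩ (F j).image φ = ((F j).image φ).erase (φ x)
      rw [← Finset.image_inter _ _ hφ, h1, Finset.image_erase hφ]
    · show (F i).image φ ∩ (F j).image φ ⊆ (F l).image φ ∩ (F j).image φ
      rw [← Finset.image_inter _ _ hφ, ← Finset.image_inter _ _ hφ]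
      exact Finset.image_subset_image h2

end Pool.Agent.R600.AK
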