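import Pool.Agent.R600.AK.Stm2

set_option autoImplicit false

/-! AK2-UU: increasing factorizations end with the largest reflection (triangular linear algebra). -/

namespace Pool.Agent.R600.AK

open Pool.Agent.Helper741 Pool.Agent.TH107 CoxeterSystem

namespace UUAux

section lin

variable {V : Type} [AddCommGroup V] [Module ℝ V] {n : ℕ} (L : V →ₗ[ℝ] V →ₗ[ℝ] ℝ) (β : Fin n → V)

theorem expand_left (x : Fin n → ℝ) (i : Fin n) (hd : L (β i) (β i) = 1) :
    L (∑ j, x j • β j) (β i) = x i + ∑ j ∈ Finset.univ.erase i, x j * L (β j) (β i) := by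
  rw [map_sum, LinearMap.sum_apply]
  simp only [map_smul, LinearMap.smul_apply, smul_eq_mul]
  rw [← Finset.add_sum_erase Finset.univ _ (Finset.mem_univ i), hd, mul_one]

theorem expand_right (x : Fin n → ℝ) (i : Fin n) (hd : L (β i) (β i) = 1) :
    L (β i) (∑ j, x j • β j) = x i + ∑ j ∈ Finset.univ.erase i, x j * L (β i) (β j) := by
  rw [map_sum]
  simp only [map_smul, smul_eq_mul]
  rw [← Finset.add_sum_erase Finset.univ _ (Finset.mem_univ i), hd, mul_one]

variable {L β}

theorem up_zero (hd : ∀ i, L (β i) (β i) = 1) (ho : ∀ i j, i < j → L (β j) (β i) = 0)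
    (x : Fin n → ℝ) (a : ℕ)
    (hA : ∀ i : Fin n, i.1 < a → L (∑ j, x j • β j) (β i) = 0) :
    ∀ k : ℕ, ∀ i : Fin n, i.1 = k → i.1 < a → x i = 0 := by
  intro k
  induction k using Nat.strong_induction_on with
  | _ k ih =>
    intro i hik hia
    have h := hA i hia
    rw [expand_left L β x i (hd i)] at h
    have h0 : ∑ j ∈ Finset.univ.erase i, x j * L (β j) (β i) = 0 := by
      apply Finset.sum_eq_zero
      intro j hj
      have hji : j ≠ i := (Finset.mem_erase.1 hj).1
      rcases lt_or_gt_of_ne hji with h1 | h1
      · have h1' : j.1 < i.1 := h1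
        rw [ih j.1 (by omega) j rfl (by omega), zero_mul]
      · rw [ho i j h1, mul_zero]
    rw [h0, add_zero] at h
    exact h

theorem down_zero (hd : ∀ i, L (β i) (β i) = 1) (ho : ∀ i j, i < j → L (β j) (β i) = 0)
    (x : Fin n → ℝ) (b : ℕ)
    (hC : ∀ i : Fin n, b ≤ i.1 → L (β i) (∑ j, x j • β j) = 0) :
    ∀ k : ℕ, ∀ i : Fin n, n - i.1 = k → b ≤ i.1 → x i = 0 := by
  intro k
  induction k using Nat.strong_induction_on with
  | _ k ih =>
    intro i hik hib
    have h := hC i hib
    rw [expand_right L β x i (hd i)] at h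
    have h0 : ∑ j ∈ Finset.univ.erase i, x j * L (β i) (β j) = 0 := by
      apply Finset.sum_eq_zero
      intro j hj
      have hji : j ≠ i := (Finset.mem_erase.1 hj).1
      rcases lt_or_gt_of_ne hji with h1 | h1
      · rw [ho j i h1, mul_zero]
      · have h1' : i.1 < j.1 := h1
        have hjn := j.2
        rw [ih (n - j.1) (by omega) j rfl (by omega), zero_mul]
    rw [h0, add_zero] at h
    exact h

theorem key (hd : ∀ i, L (β i) (β i) = 1) (ho : ∀ i j, i < j → L (β j) (β i) = 0)
    (x : Fin n → ℝ) (a b : ℕ)
    (hA : ∀ i : Fin n, i.1 < a → L (∑ j, x j • β j) (β i) = 0)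
    (hC : ∀ i : Fin n, b ≤ i.1 → L (β i) (∑ j, x j • β j) = 0)
    (hD : ∀ i : Fin n, a ≤ i.1 → i.1 < b →
      0 ≤ L (∑ j, x j • β j) (β i) ∧ L (β i) (∑ j, x j • β j) ≤ 0)
    (hneg : ∀ i j : Fin n, a ≤ i.1 → i < j → j.1 < b → L (β i) (β j) ≤ 0) (i : Fin n) : x i = 0 := by
  have za := up_zero hd ho x a hA
  have zb := down_zero hd ho x b hC
  have up : ∀ k : ℕ, ∀ i : Fin n, i.1 = k → i.1 < b → 0 ≤ x i := by
    intro k
    induction k using Nat.strong_induction_on with
    | _ k ih =>
      intro i hik hib
      rcases Nat.lt_or_ge i.1 a with hia | hia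
      · rw [za i.1 i rfl hia]
      have h := (hD i hia hib).1
      rw [expand_left L β x i (hd i)] at h
      have h0 : ∑ j ∈ Finset.univ.erase i, x j * L (β j) (β i) ≤ 0 := by
        apply Finset.sum_nonpos
        intro j hj
        have hji : j ≠ i := (Finset.mem_erase.1 hj).1
        rcases lt_or_gt_of_ne hji with h1 | h1
        · have h1' : j.1 < i.1 := h1
          rcases Nat.lt_or_ge j.1 a with hja | hja
          · rw [za j.1 j rfl hja, zero_mul]
          · exact mul_nonpos_of_nonneg_of_nonpos (ih j.1 (by omega) j rfl (by omega))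
              (hneg j i hja h1 hib)
        · rw [ho i j h1, mul_zero]
      linarith
  have down : ∀ k : ℕ, ∀ i : Fin n, n - i.1 = k → a ≤ i.1 → x i ≤ 0 := by
    intro k
    induction k using Nat.strong_induction_on with
    | _ k ih =>
      intro i hik hia
      rcases Nat.lt_or_ge i.1 b with hib | hib
      · have h := (hD i hia hib).2
        rw [expand_right L β x i (hd i)] at h
        have h0 : 0 ≤ ∑ j ∈ Finset.univ.erase i, x j * L (β i) (β j) := by
          apply Finset.sum_nonneg
          intro j hj
          have hji : j ≠ i := (Finset.mem_erase.1 hj).1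
          rcases lt_or_gt_of_ne hji with h1 | h1
          · rw [ho j i h1, mul_zero]
          · have h1' : i.1 < j.1 := h1
            have hjn := j.2
            rcases Nat.lt_or_ge j.1 b with hjb | hjb
            · exact mul_nonneg_of_nonpos_of_nonpos (ih (n - j.1) (by omega) j rfl (by omega))
                (hneg i j hia h1 hjb)
            · rw [zb (n - j.1) j rfl hjb, zero_mul]
        linarith
      · rw [zb (n - i.1) i rfl hib]
  rcases Nat.lt_or_ge i.1 a with hia | hia
  · exact za i.1 i rfl hia
  rcases Nat.lt_or_ge i.1 b with hib | hib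
  · exact le_antisymm (down _ i rfl hia) (up _ i rfl hib)
  · exact zb _ i rfl hib

theorem indep (hd : ∀ i, L (β i) (β i) = 1) (ho : ∀ i j, i < j → L (β j) (β i) = 0) :
    LinearIndependent ℝ β := by
  rw [Fintype.linearIndependent_iff]
  intro x hx i
  refine up_zero hd ho x n ?_ i.1 i rfl i.2
  intro j _
  rw [hx]
  simp

end lin

end UUAux

open UUAux in
theorem uu : StmUU := by
  intro B _ _ M W _ cs L l μ hL hl hO A D C D' s t h1 h2 hinc
  by_contra hcon
  push Not at hcon
  have o1 := Fac.orth hL h1
  have o2 := Fac.orth hL h2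
  have ht : cs.IsReflection t := h2.1 t (by simp)
  have hs : cs.IsReflection s := h1.1 s (by simp)
  set E : List W := D ++ [s] with hE
  set f : List W := A ++ E ++ C with hf
  let β : Fin f.length → (B → ℝ) := fun i => rt cs (f.get i)
  have hrefl : ∀ i : Fin f.length, cs.IsReflection (f.get i) := fun i => h1.1 _ (List.get_mem f i)
  have hd : ∀ i, L (β i) (β i) = 1 := fun i => hL.sym.root (bil_rt_self (hrefl i))
  have ho : ∀ i j, i < j → L (β j) (β i) = 0 := by
    intro i j hij
    exact (List.pairwise_iff_get.1 o1) i j hij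
  have hli : LinearIndependent ℝ β := indep hd ho
  have hlen : f.length = Fintype.card B := by
    rw [h1.2.2, ← List.toFinset_card_of_nodup hL.nodup]
    have : l.toFinset = Finset.univ := by
      ext i; simp [hl i]
    rw [this, Finset.card_univ]
  have hspan : Submodule.span ℝ (Set.range β) = ⊤ := by
    apply hli.span_eq_top_of_card_eq_finrank'
    rw [Fintype.card_fin, Module.finrank_fintype_fun_eq_card, hlen]
  have hmem : rt cs t ∈ Submodule.span ℝ (Set.range β) := by
    rw [hspan]; exact Submodule.mem_top
  obtain ⟨x, hx⟩ := (Submodule.mem_span_range_iff_exists_fun ℝ).1 hmem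
  have hμ : ∀ u ∈ E, μ u ≤ μ s := by
    intro u hu
    rw [hE, List.mem_append, List.mem_singleton] at hu
    rcases hu with hu | hu
    · exact ((List.pairwise_append.1 hinc).2.2 u hu s (by simp)).le
    · rw [hu]
  have hAE : (A ++ E).length = A.length + E.length := List.length_append
  have gA : ∀ i : Fin f.length, i.1 < A.length → f.get i ∈ A := by
    intro i hi
    have : f.get i = A[i.1] := by
      rw [List.get_eq_getElem]
      simp only [hf]
      rw [List.getElem_append_left (by omega), List.getElem_append_left hi]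
    rw [this]
    exact List.getElem_mem hi
  have gE : ∀ i : Fin f.length, ∀ (ha : A.length ≤ i.1) (hb : i.1 < A.length + E.length),
      f.get i = E[i.1 - A.length]'(by omega) := by
    intro i ha hb
    rw [List.get_eq_getElem]
    simp only [hf]
    rw [List.getElem_append_left (by omega), List.getElem_append_right ha]
  have gC : ∀ i : Fin f.length, A.length + E.length ≤ i.1 → f.get i ∈ C := by
    intro i hi
    have hi2 := i.2
    have hfl : f.length = A.length + E.length + C.length := by
      rw [hf, List.length_append, List.length_append]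
    have : f.get i = C[i.1 - (A ++ E).length]'(by omega) := by
      rw [List.get_eq_getElem]
      simp only [hf]
      rw [List.getElem_append_right (by omega)]
    rw [this]
    exact List.getElem_mem _
  have o2' : ∀ u ∈ A, L (rt cs t) (rt cs u) = 0 := by
    intro u hu
    unfold Orth at o2
    rw [List.append_assoc, List.pairwise_append] at o2
    exact o2.2.2 u hu t (by simp)
  have o3' : ∀ u ∈ C, L (rt cs u) (rt cs t) = 0 := by
    intro u hu
    unfold Orth at o2
    rw [List.pairwise_append] at o2
    exact o2.2.2 t (by simp) u hu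
  have hxz : ∀ i, x i = 0 := by
    intro i
    refine key hd ho x A.length (A.length + E.length) ?_ ?_ ?_ ?_ i
    · intro i hi
      rw [hx]
      exact o2' _ (gA i hi)
    · intro i hi
      rw [hx]
      exact o3' _ (gC i hi)
    · intro i ha hb
      rw [hx]
      have hm : f.get i ∈ E := by
        rw [gE i ha hb]; exact List.getElem_mem _
      have h3 := hO.pos (f.get i) t (hrefl i) ht (lt_of_le_of_lt (hμ _ hm) hcon)
      exact h3
    · intro i j ha hij hb
      have hij' : i.1 < j.1 := hij
      have hp : μ (f.get i) < μ (f.get j) := by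
        rw [gE i ha (by omega), gE j (by omega) hb]
        have := (List.pairwise_iff_getElem.1 hinc) (i.1 - A.length) (j.1 - A.length)
          (by omega) (by omega) (by omega)
        exact this
      exact (hO.pos _ _ (hrefl i) (hrefl j) hp).2
  have h0 : rt cs t = 0 := by
    rw [← hx]
    apply Finset.sum_eq_zero
    intro i _
    rw [hxz i, zero_smul]
  have h5 := bil_rt_self (M := M) ht
  rw [← hL.sym, h0] at h5
  simp at h5

end Pool.Agent.R600.AK
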