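import Pool.Agent.R600.AK.OR
import Pool.Agent.R600.AK.UU
import Pool.Agent.R600.AK.DE
import Pool.Agent.R600.AK.GG
import Pool.Agent.R600.AK.SO
import Pool.Agent.R600.AK.SA
import Pool.Agent.R600.AK.SB
import Pool.Agent.R600.AK.SE
import Pool.Agent.R600.AK.TR
import Pool.Agent.TH107.Final

set_option autoImplicit false

namespace Pool.Agent.R600.AK

namespace Fn

open Pool.Agent.Helper741 Pool.Agent.TH107 CoxeterSystem

variable {B : Type} {M : CoxeterMatrix B} {W : Type} [Group W] (cs : CoxeterSystem M W)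

/-- the reflections of depth at most `k` -/
def TT (k : ℕ) : Set W := {t | cs.IsReflection t ∧ cs.length t ≤ 2 * k + 1}

/-- the lengths of paths -/
def PS (k : ℕ) (w : W) : Set ℕ :=
  {r | ∃ p : ℕ → W, p 0 = 1 ∧ p r = w ∧ ∀ i < r, cs.IsReflection (p i * (p (i + 1))⁻¹) ∧
    cs.length (p i * (p (i + 1))⁻¹) ≤ 2 * k + 1 ∧ Bru cs (p i) (p (i + 1)) ∧ p i ≠ p (i + 1)}

lemma path_of_list (k : ℕ) (D : List W) (hD : ∀ t ∈ D, t ∈ TT cs k)
    (hinc : ∀ (D₁ D₂ : List W) (τ : W), D = D₁ ++ τ :: D₂ →
      cs.length D₂.prod < cs.length (τ * D₂.prod)) : D.length ∈ PS cs k D.prod := by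
  refine ⟨fun i => (D.drop (D.length - i)).prod, by simp, by simp, ?_⟩
  intro i hi
  set m := D.length - (i + 1) with hm
  have hm1 : D.length - i = m + 1 := by omega
  have hmlt : m < D.length := by omega
  have h1 : D.drop m = D[m] :: D.drop (m + 1) := List.drop_eq_getElem_cons hmlt
  have h2 := hinc (D.take m) (D.drop (m + 1)) D[m] (by
    rw [← h1, List.take_append_drop])
  have hT := hD D[m] (List.getElem_mem hmlt)
  have hpi : (D.drop (D.length - i)).prod = (D.drop (m + 1)).prod := by rw [hm1]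
  have hpi1 : (D.drop m).prod = D[m] * (D.drop (m + 1)).prod := by
    rw [h1, List.prod_cons]
  simp only [hpi, ← hm, hpi1]
  have h3 : (D.drop (m + 1)).prod * (D[m] * (D.drop (m + 1)).prod)⁻¹ = D[m] := by
    rw [mul_inv_rev, mul_inv_cancel_left, hT.1.inv]
  rw [h3]
  refine ⟨hT.1, hT.2, Relation.ReflTransGen.single ⟨_, hT.1, rfl, h2⟩, ?_⟩
  intro he
  rw [← he] at h2
  exact lt_irrefl _ h2

lemma list_of_path (k : ℕ) (r : ℕ) : ∀ (w : W), r ∈ PS cs k w →
    ∃ D : List W, (∀ t ∈ D, t ∈ TT cs k) ∧ D.prod = w ∧ D.length = r := by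
  induction r with
  | zero =>
    rintro w ⟨p, h0, h1, _⟩
    exact ⟨[], by simp, by rw [← h1, h0, List.prod_nil], rfl⟩
  | succ r ih =>
    rintro w ⟨p, h0, h1, h2⟩
    obtain ⟨D, hD, hp, hl⟩ := ih (p r) ⟨p, h0, rfl, fun i hi => h2 i (by omega)⟩
    obtain ⟨h3, h4, _, _⟩ := h2 r (by omega)
    refine ⟨(p r * (p (r + 1))⁻¹) :: D, ?_, ?_, by simp [hl]⟩
    · intro t ht
      rcases List.mem_cons.1 ht with rfl | ht
      · exact ⟨h3, h4⟩
      · exact hD t ht
    · rw [List.prod_cons, hp, ← h3.inv, mul_inv_rev, inv_inv, inv_mul_cancel_right, h1]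

lemma PS_nonempty (k : ℕ) (w : W) : (PS cs k w).Nonempty := by
  obtain ⟨ω, hω, rfl⟩ := cs.exists_reduced_word w
  have hprod : ∀ l : List B, (l.map cs.simple).prod = cs.wordProd l := fun l => rfl
  have h := path_of_list cs k (ω.map cs.simple) ?_ ?_
  · rw [hprod] at h
    exact ⟨_, h⟩
  · intro t ht
    obtain ⟨i, _, rfl⟩ := List.mem_map.1 ht
    exact ⟨cs.isReflection_simple i, by rw [cs.length_simple]; omega⟩
  · intro D₁ D₂ τ he
    obtain ⟨l₁, l₂', h1, h2, h3⟩ := List.map_eq_append_iff.1 he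
    obtain ⟨i, l₂, h4, h5, h6⟩ := List.map_eq_cons_iff.1 h3
    subst h4
    rw [← h5, ← h6, hprod, ← cs.wordProd_cons]
    have e1 : cs.length (cs.wordProd (i :: l₂)) = (i :: l₂).length := by
      have h7 : cs.length (cs.wordProd ω) ≤ cs.length (cs.wordProd l₁) +
          cs.length (cs.wordProd (i :: l₂)) := by
        rw [h1, cs.wordProd_append]; exact cs.length_mul_le _ _
      have hω' : cs.length (cs.wordProd ω) = ω.length := by
        first
          | exact hω
          | exact hω.symm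
      have h8 := cs.length_wordProd_le l₁
      have h9 := cs.length_wordProd_le (i :: l₂)
      have h10 : ω.length = l₁.length + (i :: l₂).length := by rw [h1, List.length_append]
      omega
    have h9 := cs.length_wordProd_le l₂
    rw [e1, List.length_cons]
    omega

lemma lk_spec (k : ℕ) (w : W) :
    ∃ D : List W, (∀ t ∈ D, t ∈ TT cs k) ∧ D.prod = w ∧ D.length = lk cs k w :=
  list_of_path cs k _ w (Nat.sInf_mem (PS_nonempty cs k w))

lemma lk_le (k : ℕ) (D : List W) (hD : ∀ t ∈ D, t ∈ TT cs k)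
    (hinc : ∀ (D₁ D₂ : List W) (τ : W), D = D₁ ++ τ :: D₂ →
      cs.length D₂.prod < cs.length (τ * D₂.prod)) : lk cs k D.prod ≤ D.length :=
  Nat.sInf_le (path_of_list cs k D hD hinc)

end Fn

open Fn Pool.Agent.Helper741 Pool.Agent.TH107 CoxeterSystem in
theorem main2 : StmMain2 := by
  intro B _ M W _ _ cs ω hnd hall k
  classical
  obtain ⟨L, hL⟩ : ∃ L : Bil B, Adapted M L ω := by
    refine exists_adapted ω hnd (fun i => ω.idxOf i) ?_ ?_
    · intro i j hij
      exact (List.idxOf_inj (hall i)).1 hij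
    · rw [List.pairwise_iff_getElem]
      intro i j hi hj hij
      rw [hnd.idxOf_getElem, hnd.idxOf_getElem]
      exact hij
  obtain ⟨μ, hμ⟩ := orr B M W cs L ω hL hall
  set n := ω.length with hn
  set c := cs.wordProd ω with hc
  have hfac : ∀ f : List W, FF n c (TT cs k) f → Fac cs ω f := fun f hf =>
    ⟨fun t ht => (hf.2.2 t ht).1, hf.2.1, hf.1⟩
  have hlen : ∀ f : List W, (∀ t ∈ f, t ∈ TT cs k) → f.prod = c → n ≤ f.length := by
    intro f hf hp
    exact (hurH n ω rfl hnd f (fun t ht => (hf t ht).1) hp).1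
  have hmemT : ∀ (A C : List W), (∀ t ∈ A ++ C, t ∈ TT cs k) ↔
      (∀ t ∈ A, t ∈ TT cs k) ∧ (∀ t ∈ C, t ∈ TT cs k) := by
    intro A C
    constructor
    · intro h; exact ⟨fun t ht => h t (by simp [ht]), fun t ht => h t (by simp [ht])⟩
    · rintro ⟨h1, h2⟩ t ht
      rcases List.mem_append.1 ht with h | h
      · exact h1 t h
      · exact h2 t h
  have hle3 : ∀ f f' : List W, FF n c (TT cs k) f → FF n c (TT cs k) f' → ∀ i j, i ≤ n → j ≤ n →
      (f.drop i).prod = (f'.drop j).prod → i ≤ j := by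
    intro f f' hf hf' i j hi hj he
    have h1 := hlen (f'.take j ++ f.drop i) ((hmemT _ _).2
      ⟨fun t ht => hf'.2.2 t (List.mem_of_mem_take ht), fun t ht => hf.2.2 t (List.mem_of_mem_drop ht)⟩)
      (by rw [List.prod_append, he, ← List.prod_append, List.take_append_drop]; exact hf'.2.1)
    rw [List.length_append, List.length_take, List.length_drop, hf.1, hf'.1] at h1
    omega
  have S : Sys n c (TT cs k) μ := by
    refine ⟨Set.toFinite _, fun t ht u hu h => hμ.inj t u ht.1 hu.1 h, ?_, ?_, ?_, ?_, ?_⟩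
    · refine ⟨ω.map cs.simple, by simp [hn], rfl, ?_⟩
      intro t ht
      obtain ⟨i, _, rfl⟩ := List.mem_map.1 ht
      exact ⟨cs.isReflection_simple i, by rw [cs.length_simple]; omega⟩
    · intro A a C hf
      have ha : a ∈ TT cs k := hf.2.2 a (by simp)
      have h1 := hlen (A ++ C) ((hmemT _ _).2 ⟨fun t ht => hf.2.2 t (by simp [ht]),
        fun t ht => hf.2.2 t (by simp [ht])⟩) (by
          have := hf.2.1
          rw [List.prod_append, List.prod_cons, List.prod_cons, ← mul_assoc a a, ha.1.mul_self,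
            one_mul, ← List.prod_append] at this
          exact this)
      have h2 := hf.1
      simp only [List.length_append, List.length_cons] at h1 h2
      omega
    · intro A t s C hf hlt
      obtain ⟨x, y, hx, hy, hxy, hlt', hlx, hly⟩ :=
        de B M W cs L ω μ hL hμ A C t s (hfac _ hf) hlt
      have ht : t ∈ TT cs k := hf.2.2 t (by simp)
      have hs : s ∈ TT cs k := hf.2.2 s (by simp)
      exact ⟨x, ⟨hx, hlx.trans (max_le ht.2 hs.2)⟩, y, ⟨hy, hly.trans (max_le ht.2 hs.2)⟩, hxy, hlt'⟩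
    · intro A D C D' s t h1 h2 h3
      exact uu B M W cs L ω μ hL hall hμ A D C D' s t (hfac _ h1) (hfac _ h2) h3
    · intro f f' hf hf' i j hi hj he
      exact le_antisymm (hle3 f f' hf hf' i j hi hj he) (hle3 f' f hf' hf j i hj hi he.symm)
  have hseg : ∀ A D C : List W, FF n c (TT cs k) (A ++ D ++ C) → lk cs k D.prod = D.length := by
    intro A D C hf
    apply le_antisymm
    · obtain ⟨D', hD', hp, hl, hf'⟩ := so W n c (TT cs k) μ S A D C hf
      rw [← hp, ← hl]
      refine lk_le cs k D' (fun t ht => hf'.2.2 t (by simp [ht])) ?_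
      exact gg B M W cs L ω μ hL hμ A D' C (hfac _ hf') hD'
    · obtain ⟨E, hE, hp, hl⟩ := lk_spec cs k D.prod
      have h1 := hlen (A ++ E ++ C) (by
        rw [hmemT, hmemT]
        exact ⟨⟨fun t ht => hf.2.2 t (by simp [ht]), hE⟩, fun t ht => hf.2.2 t (by simp [ht])⟩) (by
          rw [List.prod_append, List.prod_append, hp, ← List.prod_append, ← List.prod_append]
          exact hf.2.1)
      have h2 := hf.1
      simp only [List.length_append] at h1 h2
      omega
  obtain ⟨f₀, hf₀⟩ := S.ne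
  have hlkc : lk cs k c = n := by
    have h := hseg [] f₀ [] (by simpa using hf₀)
    rw [hf₀.2.1, hf₀.1] at h
    exact h
  have hlk1 : lk cs k 1 = 0 := by
    have h := hseg [] [] f₀ (by simpa using hf₀)
    simpa using h
  have hXF : {w | Ale cs k 1 w ∧ Ale cs k w c} = id '' XF n c (TT cs k) := by
    rw [Set.image_id]
    ext u
    constructor
    · rintro ⟨_, h⟩
      unfold Ale at h
      obtain ⟨D1, hD1, hp1, hl1⟩ := lk_spec cs k u
      obtain ⟨D2, hD2, hp2, hl2⟩ := lk_spec cs k (c * u⁻¹)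
      refine ⟨D2 ++ D1, ⟨?_, ?_, (hmemT _ _).2 ⟨hD2, hD1⟩⟩, D2.length, ?_, ?_⟩
      · rw [List.length_append]; omega
      · rw [List.prod_append, hp1, hp2, inv_mul_cancel_right]
      · omega
      · rw [List.drop_left, hp1]
    · rintro ⟨f, hf, i, hi, rfl⟩
      constructor
      · unfold Ale
        rw [hlk1, inv_one, mul_one, zero_add]
      · unfold Ale
        have h1 := hseg (f.take i) (f.drop i) [] (by simpa using hf)
        have h2 := hseg [] (f.take i) (f.drop i) (by simpa using hf)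
        have h3 : c * ((f.drop i).prod)⁻¹ = (f.take i).prod := by
          rw [mul_inv_eq_iff_eq_mul, ← List.prod_append, List.take_append_drop]
          exact hf.2.1.symm
        rw [h3, h1, h2, hlkc, List.length_drop, List.length_take, hf.1]
        omega
  refine tr W W (XF n c (TT cs k)) (RF n c (TT cs k)) _ (Ale cs k) id Function.injective_id hXF
    ?_ (se sa sb W n c (TT cs k) μ S)
  intro u hu v hv
  simp only [id]
  constructor
  · intro h
    unfold Ale at h
    have hv' : v ∈ {w | Ale cs k 1 w ∧ Ale cs k w c} := by rw [hXF, Set.image_id]; exact hv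
    have hv2 : lk cs k c = lk cs k v + lk cs k (c * v⁻¹) := hv'.2
    obtain ⟨D1, hD1, hp1, hl1⟩ := lk_spec cs k u
    obtain ⟨D2, hD2, hp2, hl2⟩ := lk_spec cs k (v * u⁻¹)
    obtain ⟨D3, hD3, hp3, hl3⟩ := lk_spec cs k (c * v⁻¹)
    refine ⟨D3 ++ (D2 ++ D1), ⟨?_, ?_, ?_⟩, D3.length + D2.length, D3.length, ?_, ?_, ?_, ?_⟩
    · rw [List.length_append, List.length_append]; omega
    · rw [List.prod_append, List.prod_append, hp1, hp2, hp3]; group
    · rw [hmemT, hmemT]; exact ⟨hD3, hD2, hD1⟩
    · omega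
    · omega
    · rw [← List.append_assoc, List.drop_left' (by simp), hp1]
    · rw [List.drop_left, List.prod_append, hp1, hp2, inv_mul_cancel_right]
  · rintro ⟨f, hf, i, j, hi, hj, rfl, rfl⟩
    unfold Ale
    have e1 : f.drop j = (f.drop j).take (i - j) ++ f.drop i := by
      conv_lhs => rw [← List.take_append_drop (i - j) (f.drop j)]
      rw [List.drop_drop]
      congr 2
      omega
    have e2 : f = f.take j ++ ((f.drop j).take (i - j) ++ f.drop i) := by
      rw [← e1, List.take_append_drop]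
    have h1 := hseg (f.take j) (f.drop j) [] (by simpa using hf)
    have h2 := hseg (f.take i) (f.drop i) [] (by simpa using hf)
    have h3 := hseg (f.take j) ((f.drop j).take (i - j)) (f.drop i) (by
      rw [List.append_assoc, ← e2]; exact hf)
    have h4 : (f.drop j).prod * ((f.drop i).prod)⁻¹ = ((f.drop j).take (i - j)).prod := by
      rw [mul_inv_eq_iff_eq_mul, ← List.prod_append, ← e1]
    rw [h4, h1, h2, h3, List.length_drop, List.length_drop, List.length_take, List.length_drop, hf.1]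
    omega

end Pool.Agent.R600.AK
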