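import Mathlib

set_option autoImplicit false

/-! Project AK (MP_20db89_co): shellability of the intervals `[e,c]_k`. Statements of the
pieces; proofs in NOTES.md. -/

namespace Pool.Agent.R600.AK

open Finset

section shell
open Classical

variable {α : Type}

/-- (finite) chains of the poset `(X, R)`: faces of the order complex -/
def IsCh (X : Set α) (R : α → α → Prop) (s : Finset α) : Prop :=
  (∀ x ∈ s, x ∈ X) ∧ ∀ x ∈ s, ∀ y ∈ s, R x y ∨ R y x

/-- facets of the order complex -/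
def IsFacet (X : Set α) (R : α → α → Prop) (s : Finset α) : Prop :=
  IsCh X R s ∧ ∀ t, IsCh X R t → s ⊆ t → t = s

/-- the order complex is shellable -/
def Shellable (X : Set α) (R : α → α → Prop) : Prop :=
  ∃ (m : ℕ) (F : Fin m → Finset α), Function.Injective F ∧
    (∀ s, IsFacet X R s ↔ ∃ i, F i = s) ∧
    ∀ i j, i < j → ∃ l < j, ∃ x ∈ F j, F l ∩ F j = (F j).erase x ∧ F i ∩ F j ⊆ F l ∩ F j

/-- TR: transport along an injective map -/
def StmTr : Prop := ∀ (α β : Type) (X : Set α) (R : α → α → Prop) (Y : Set β)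
  (S : β → β → Prop) (φ : α → β), Function.Injective φ → Y = φ '' X →
  (∀ x ∈ X, ∀ y ∈ X, S (φ x) (φ y) ↔ R x y) → Shellable X R → Shellable Y S

end shell

variable {n : ℕ}

/-- add one letter -/
def StepA (A : Finset (Fin n) → Fin n → Prop) (I J : Finset (Fin n)) : Prop :=
  ∃ j, j ∉ I ∧ A I j ∧ J = insert j I

/-- the order generated by the steps -/
def LeA (A : Finset (Fin n) → Fin n → Prop) : Finset (Fin n) → Finset (Fin n) → Prop :=
  Relation.ReflTransGen (StepA A)

/-- the interval -/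
def XA (A : Finset (Fin n) → Fin n → Prop) : Set (Finset (Fin n)) :=
  {I | LeA A ∅ I ∧ LeA A I univ}

/-- prefix sets -/
def KK (σ : Fin n → Fin n) (m : ℕ) : Finset (Fin n) :=
  (univ.filter (fun i : Fin n => i.val < m)).image σ

/-- allowed orders of the letters -/
def Allowed (A : Finset (Fin n) → Fin n → Prop) (σ : Fin n → Fin n) : Prop :=
  Function.Injective σ ∧ ∀ i : Fin n, A (KK σ i.val) (σ i)

/-- the maximal chain of an allowed order -/
def Fc (σ : Fin n → Fin n) : Finset (Finset (Fin n)) := (range (n + 1)).image (KK σ)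

/-- CA: the facets are the maximal chains of the allowed orders -/
def StmCA : Prop := ∀ (n : ℕ) (A : Finset (Fin n) → Fin n → Prop), LeA A ∅ univ →
  ∀ s, IsFacet (XA A) (LeA A) s ↔ ∃ σ, Allowed A σ ∧ Fc σ = s

/-- CB: the exchange step of the lexicographic shelling -/
def StmCB : Prop := ∀ (n : ℕ) (A : Finset (Fin n) → Fin n → Prop),
  (∀ I I' j, (∀ i < j, (i ∈ I ↔ i ∈ I')) → A I j → A I' j) →
  (∀ I I' j, I ⊆ I' → A I' j → A I j) →
  ∀ σ τ : Fin n → Fin n, Allowed A σ → Allowed A τ → ∀ m : Fin n, (∀ i < m, σ i = τ i) →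
    τ m < σ m → ∃ ρ, Allowed A ρ ∧ (∃ p : Fin n, (∀ i < p, ρ i = τ i) ∧ τ p < ρ p) ∧
      ∃ x ∈ Fc τ, Fc ρ ∩ Fc τ = (Fc τ).erase x ∧ Fc σ ∩ Fc τ ⊆ Fc ρ ∩ Fc τ

/-- CC: the combinatorial core -/
def StmCC : Prop := ∀ (n : ℕ) (A : Finset (Fin n) → Fin n → Prop),
  (∀ I I' j, (∀ i < j, (i ∈ I ↔ i ∈ I')) → A I j → A I' j) →
  (∀ I I' j, I ⊆ I' → A I' j → A I j) → (∀ j, A ∅ j) →
  Shellable (XA A) (LeA A)

/-- MO: monotonicity of the depth -/
def StmMO : Prop := ∀ (B : Type) [Fintype B] (M : CoxeterMatrix B) (W : Type) [Group W]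
  (cs : CoxeterSystem M W) (j : B) (p' p : List B), (j :: p).Nodup → p'.Sublist p →
  cs.length (cs.wordProd p' * cs.simple j * (cs.wordProd p')⁻¹) ≤
    cs.length (cs.wordProd p * cs.simple j * (cs.wordProd p)⁻¹)

section main
variable {B : Type} {M : CoxeterMatrix B} {W : Type} [Group W] (cs : CoxeterSystem M W)

/-- Bruhat order -/
def Bru : W → W → Prop := Relation.ReflTransGen
  (fun a b => ∃ t, cs.IsReflection t ∧ b = t * a ∧ cs.length a < cs.length b)

/-- the `k`-intermediate order -/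
def KLe (k : ℕ) : W → W → Prop := Relation.ReflTransGen
  (fun a b => ∃ t, cs.IsReflection t ∧ cs.length t ≤ 2 * k + 1 ∧ b = t * a ∧ Bru cs a b ∧ a ≠ b)

end main

/-- the main result -/
def StmMain : Prop := ∀ (B : Type) [Fintype B] (M : CoxeterMatrix B) (W : Type) [Group W]
  (cs : CoxeterSystem M W) (ω : List B), ω.Nodup → (∀ i, i ∈ ω) → ∀ k : ℕ,
  Shellable {w | KLe cs k 1 w ∧ KLe cs k w (cs.wordProd ω)} (KLe cs k)

end Pool.Agent.R600.AK
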