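import Pool.Agent.TH107.Hur
import Pool.Agent.R600.AK.Stm

set_option autoImplicit false

/-! Project AK: monotonicity of the depth of the reflections `u s u⁻¹`. -/

namespace Pool.Agent.R600.AK

namespace MOaux

open Pool.Agent.Helper741 Pool.Agent.TH107 CoxeterSystem

variable {B : Type} {M : CoxeterMatrix B} [Fintype B] [DecidableEq B]
variable {W : Type} [Group W] {cs : CoxeterSystem M W}

lemma cc_nn {i j : B} (h : i ≠ j) : 0 ≤ cc M i j := by
  have h1 : M i j = 0 ∨ 2 ≤ M i j := by
    by_cases h0 : M i j = 0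
    · exact Or.inl h0
    · exact Or.inr (two_le_of_ne M h h0)
  have h2 := qs_nonneg M h h1
  rw [qs_add_two, qs_one, qs_zero] at h2
  linarith

lemma coroot_np {v : B → ℝ} (hv : 0 ≤ v) {b : B} (hb : v b = 0) : coroot M b v ≤ 0 := by
  rw [coroot_apply]
  apply Finset.sum_nonpos
  intro j _
  by_cases h : j = b
  · rw [h, hb]; simp
  · have h1 := cc_nn (M := M) (i := b) (j := j) (Ne.symm h)
    have h2 : (0 : ℝ) ≤ v j := hv j
    nlinarith [mul_nonneg h1 h2]

/-- the root -/
noncomputable def Rr (cs : CoxeterSystem M W) (p : List B) (j : B) : B → ℝ :=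
  geo cs (cs.wordProd p) (ee j)

lemma Rr_cons (a : B) (p : List B) (j : B) :
    Rr cs (a :: p) j = Rr cs p j - coroot M a (Rr cs p j) • ee a := by
  unfold Rr
  rw [wordProd_cons, ← geo_geo, geo_simple, sg_apply]

lemma Rr_nil (j : B) : Rr cs [] j = ee j := by
  unfold Rr
  rw [wordProd_nil, map_one, Module.End.one_apply]

lemma Rr_out {p : List B} {j i : B} (hi : i ∉ p) (hij : i ≠ j) : Rr cs p j i = 0 := by
  unfold Rr
  rw [geo_wordProd_coord _ _ hi]
  simp [ee, Pi.single_apply, hij]

lemma Rr_j {p : List B} {j : B} (hj : j ∉ p) : Rr cs p j j = 1 := by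
  unfold Rr
  rw [geo_wordProd_coord _ _ hj]
  simp [ee]

lemma Rr_nonneg (j : B) (p : List B) (h : (j :: p).Nodup) : 0 ≤ Rr cs p j := by
  induction p with
  | nil => rw [Rr_nil]; exact ee_nonneg j
  | cons a p ih =>
    have h1 : j ≠ a ∧ j ∉ p ∧ a ∉ p ∧ p.Nodup := by
      simp only [List.nodup_cons, List.mem_cons, not_or] at h
      tauto
    have h2 := ih (by simp only [List.nodup_cons]; tauto)
    have h3 := coroot_np (M := M) h2 (Rr_out (cs := cs) (j := j) h1.2.2.1 (Ne.symm h1.1))
    rw [Rr_cons]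
    intro i
    have h4 : (0 : ℝ) ≤ Rr cs p j i := h2 i
    have h5 : (0 : ℝ) ≤ ee a i := ee_nonneg a i
    simp only [Pi.zero_apply, Pi.sub_apply, Pi.smul_apply, smul_eq_mul]
    nlinarith [mul_nonneg (neg_nonneg.2 h3) h5]

lemma Rr_mono (j : B) {p' p : List B} (hs : p'.Sublist p) :
    (j :: p).Nodup → 0 ≤ Rr cs p j - Rr cs p' j := by
  induction hs with
  | slnil => intro _; simp
  | @cons p' p a hs ih =>
    intro h
    have h1 : j ≠ a ∧ j ∉ p ∧ a ∉ p ∧ p.Nodup := by
      simp only [List.nodup_cons, List.mem_cons, not_or] at h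
      tauto
    have h0 : (j :: p).Nodup := by simp only [List.nodup_cons]; tauto
    have h2 := ih h0
    have h3 := coroot_np (M := M) (Rr_nonneg (cs := cs) j p h0)
      (Rr_out (cs := cs) (j := j) h1.2.2.1 (Ne.symm h1.1))
    rw [Rr_cons]
    intro i
    have h4 : (0 : ℝ) ≤ (Rr cs p j - Rr cs p' j) i := h2 i
    have h5 : (0 : ℝ) ≤ ee a i := ee_nonneg a i
    simp only [Pi.zero_apply, Pi.sub_apply, Pi.smul_apply, smul_eq_mul] at h4 ⊢
    nlinarith [mul_nonneg (neg_nonneg.2 h3) h5]
  | @cons_cons p' p a hs ih =>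
    intro h
    have h1 : j ≠ a ∧ j ∉ p ∧ a ∉ p ∧ p.Nodup := by
      simp only [List.nodup_cons, List.mem_cons, not_or] at h
      tauto
    have h0 : (j :: p).Nodup := by simp only [List.nodup_cons]; tauto
    have h2 := ih h0
    have ha' : a ∉ p' := fun hx => h1.2.2.1 (hs.subset hx)
    have h3 := coroot_np (M := M) h2 (b := a) (by
      rw [Pi.sub_apply, Rr_out h1.2.2.1 (Ne.symm h1.1), Rr_out ha' (Ne.symm h1.1), sub_zero])
    rw [map_sub] at h3
    rw [Rr_cons, Rr_cons]
    intro i
    have h4 : (0 : ℝ) ≤ (Rr cs p j - Rr cs p' j) i := h2 i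
    have h5 : (0 : ℝ) ≤ ee a i := ee_nonneg a i
    simp only [Pi.zero_apply, Pi.sub_apply, Pi.smul_apply, smul_eq_mul] at h4 ⊢
    nlinarith [mul_nonneg (neg_nonneg.2 h3) h5]

/-- the reflection -/
def Tt (cs : CoxeterSystem M W) (p : List B) (j : B) : W :=
  cs.wordProd p * cs.simple j * (cs.wordProd p)⁻¹

lemma Tt_refl (p : List B) (j : B) : cs.IsReflection (Tt cs p j) :=
  (cs.isReflection_simple j).conj _

lemma Tt_cons (a : B) (p : List B) (j : B) :
    Tt cs (a :: p) j = cs.simple a * Tt cs p j * cs.simple a := by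
  unfold Tt
  rw [wordProd_cons, mul_inv_rev, inv_simple]
  group

lemma rt_Tt (j : B) (p : List B) (h : (j :: p).Nodup) : rt cs (Tt cs p j) = Rr cs p j := by
  unfold Tt Rr
  rw [rt_conj_pos (cs.isReflection_simple j), rt_simple]
  rw [rt_simple]
  exact Rr_nonneg j p h

lemma len_cons (a : B) (p : List B) (j : B) (h : (j :: a :: p).Nodup) :
    (coroot M a (Rr cs p j) = 0 ∧ cs.length (Tt cs (a :: p) j) = cs.length (Tt cs p j)) ∨
    (coroot M a (Rr cs p j) ≠ 0 ∧ cs.length (Tt cs (a :: p) j) = cs.length (Tt cs p j) + 2) := by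
  have h1 : j ≠ a ∧ j ∉ p ∧ a ∉ p ∧ p.Nodup := by
    simp only [List.nodup_cons, List.mem_cons, not_or] at h
    tauto
  have h0 : (j :: p).Nodup := by simp only [List.nodup_cons]; tauto
  have hnn := Rr_nonneg (cs := cs) j p h0
  have hnp := coroot_np (M := M) hnn (Rr_out (cs := cs) (j := j) h1.2.2.1 (Ne.symm h1.1))
  by_cases hz : coroot M a (Rr cs p j) = 0
  · left
    refine ⟨hz, ?_⟩
    have h2 : Tt cs (a :: p) j = Tt cs p j := by
      apply rt_inj (Tt_refl _ _) (Tt_refl _ _)
      rw [rt_Tt j _ h, rt_Tt j _ h0, Rr_cons, hz, zero_smul, sub_zero]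
    rw [h2]
  · right
    refine ⟨hz, ?_⟩
    have hneg : coroot M a (Rr cs p j) < 0 := lt_of_le_of_ne hnp hz
    set t := Tt cs p j with ht
    have hgt : geo cs t (ee a) = ee a - coroot M a (Rr cs p j) • Rr cs p j := by
      rw [geo_refl (Tt_refl p j), rt_Tt j _ h0, bil_ee_right]
    have h3 : cs.length t < cs.length (t * cs.simple a) := by
      rw [length_lt_iff (cs.isReflection_simple a), rt_simple, hgt]
      intro i
      have h4 : (0 : ℝ) ≤ Rr cs p j i := hnn i
      have h5 : (0 : ℝ) ≤ ee a i := ee_nonneg a i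
      simp only [Pi.zero_apply, Pi.sub_apply, Pi.smul_apply, smul_eq_mul]
      nlinarith [mul_nonneg (neg_nonneg.2 hnp) h4]
    have h4 : cs.length (cs.simple a * t) < cs.length (cs.simple a * t * cs.simple a) := by
      rw [length_lt_iff (cs.isReflection_simple a), rt_simple]
      have hroot : IsRt cs (geo cs (cs.simple a * t) (ee a)) := (isRt_ee cs a).geo _
      rcases hroot.cases with hc | hc
      · exact hc
      · exfalso
        have h5 : (geo cs (cs.simple a * t) (ee a)) j ≤ 0 := hc j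
        rw [← geo_geo, hgt, geo_simple, sg_apply] at h5
        simp only [Pi.sub_apply, Pi.smul_apply, smul_eq_mul] at h5
        rw [Rr_j h1.2.1] at h5
        have h6 : ee a j = (0 : ℝ) := by simp [ee, Pi.single_apply, h1.1]
        rw [h6] at h5
        linarith
    have h5 : cs.length (cs.simple a * t) = cs.length (t * cs.simple a) := by
      rw [← cs.length_inv (cs.simple a * t), mul_inv_rev, inv_simple, (Tt_refl p j).inv]
    have h6 := cs.length_mul_simple t a
    have h7 := cs.length_mul_simple (cs.simple a * t) a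
    rw [Tt_cons, ← ht]
    omega

lemma len_mono (j : B) {p' p : List B} (hs : p'.Sublist p) :
    (j :: p).Nodup → cs.length (Tt cs p' j) ≤ cs.length (Tt cs p j) := by
  induction hs with
  | slnil => intro _; exact le_refl _
  | @cons p' p a hs ih =>
    intro h
    have h1 : j ≠ a ∧ j ∉ p ∧ a ∉ p ∧ p.Nodup := by
      simp only [List.nodup_cons, List.mem_cons, not_or] at h
      tauto
    have h0 : (j :: p).Nodup := by simp only [List.nodup_cons]; tauto
    have h2 := ih h0
    rcases len_cons (cs := cs) a p j h with h3 | h3 <;> omega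
  | @cons_cons p' p a hs ih =>
    intro h
    have h1 : j ≠ a ∧ j ∉ p ∧ a ∉ p ∧ p.Nodup := by
      simp only [List.nodup_cons, List.mem_cons, not_or] at h
      tauto
    have h0 : (j :: p).Nodup := by simp only [List.nodup_cons]; tauto
    have h2 := ih h0
    have ha' : a ∉ p' := fun hx => h1.2.2.1 (hs.subset hx)
    have h0' : (j :: a :: p').Nodup := by
      have := hs.nodup h1.2.2.2
      have h6 : j ∉ p' := fun hx => h1.2.1 (hs.subset hx)
      simp only [List.nodup_cons, List.mem_cons, not_or]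
      tauto
    have h0'' : (j :: p').Nodup := by
      simp only [List.nodup_cons, List.mem_cons, not_or] at h0' ⊢
      tauto
    have hm := Rr_mono (cs := cs) j hs h0
    have h3 := coroot_np (M := M) hm (b := a) (by
      rw [Pi.sub_apply, Rr_out h1.2.2.1 (Ne.symm h1.1), Rr_out ha' (Ne.symm h1.1), sub_zero])
    rw [map_sub] at h3
    have h4 := coroot_np (M := M) (Rr_nonneg (cs := cs) j p' h0'')
      (Rr_out (cs := cs) (j := j) ha' (Ne.symm h1.1))
    rcases len_cons (cs := cs) a p j h with ⟨h5, h6⟩ | ⟨h5, h6⟩ <;>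
      rcases len_cons (cs := cs) a p' j h0' with ⟨h7, h8⟩ | ⟨h7, h8⟩
    · omega
    · exfalso; apply h7; rw [h5] at h3; linarith
    · omega
    · omega

end MOaux

open MOaux in
theorem mo : StmMO := by
  intro B _ M W _ cs j p' p h hs
  classical
  exact len_mono (cs := cs) j hs h

end Pool.Agent.R600.AK
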