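import Pool.Agent.R600.AK.MO
import Pool.Agent.R330.BP.Basic

set_option autoImplicit false

/-! Project AK: the elements below a Coxeter element and the steps between them. -/

namespace Pool.Agent.R600.AK

namespace Mn

open Pool.Agent.Helper741 Pool.Agent.TH107 CoxeterSystem MOaux

variable {B : Type} {M : CoxeterMatrix B} [Fintype B] [DecidableEq B]
variable {W : Type} [Group W] {cs : CoxeterSystem M W}

lemma red_of_nodup (l : List B) (h : l.Nodup) : cs.length (cs.wordProd l) = l.length := by
  induction l with
  | nil => simp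
  | cons a l ih =>
    have ha : a ∉ l := (List.nodup_cons.1 h).1
    have h1 := ih (List.nodup_cons.1 h).2
    have h2 : ¬ geo cs (cs.wordProd l.reverse) (rt cs (cs.simple a)) ≤ 0 := by
      intro hc
      have h3 := hc a
      rw [rt_simple, geo_wordProd_coord _ _ (by simpa using ha)] at h3
      simp [ee] at h3
      linarith
    have h3 := (length_gt_iff (cs.isReflection_simple a) (w := cs.wordProd l.reverse)).not.2 h2
    have h4 := cs.length_mul_simple (cs.wordProd l.reverse) a
    have h5 : cs.length (cs.wordProd l.reverse) = l.length := by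
      rw [wordProd_reverse, length_inv, h1]
    have h6 : cs.length (cs.wordProd (a :: l)) =
        cs.length (cs.wordProd l.reverse * cs.simple a) := by
      rw [wordProd_cons, wordProd_reverse, ← cs.length_inv (cs.simple a * cs.wordProd l),
        mul_inv_rev, inv_simple]
    rw [h6, List.length_cons]
    omega

variable {n : ℕ}

/-- the word of a set of positions -/
def wd (g : Fin n → B) (I : Finset (Fin n)) : List B := (I.sort).map g

/-- the element of a set of positions -/
def ph (cs : CoxeterSystem M W) (g : Fin n → B) (I : Finset (Fin n)) : W :=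
  cs.wordProd (wd g I)

lemma wd_nodup {g : Fin n → B} (hg : Function.Injective g) (I : Finset (Fin n)) :
    (wd g I).Nodup := (Finset.sort_nodup I (· ≤ ·)).map hg

lemma mem_wd {g : Fin n → B} {I : Finset (Fin n)} {b : B} : b ∈ wd g I ↔ ∃ i ∈ I, g i = b := by
  unfold wd
  simp

lemma notMem_wd {g : Fin n → B} (hg : Function.Injective g) {I : Finset (Fin n)} {j : Fin n}
    (h : j ∉ I) : g j ∉ wd g I := by
  rw [mem_wd]
  rintro ⟨i, hi, he⟩
  exact h (hg he ▸ hi)

lemma sort_split (I : Finset (Fin n)) {j : Fin n} (h : j ∉ I) :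
    I.sort = (I.filter (· < j)).sort ++ (I.filter (j < ·)).sort := by
  apply List.SortedLT.eq_of_mem_iff (Finset.sortedLT_sort _)
  · apply List.Pairwise.sortedLT
    rw [List.pairwise_append]
    refine ⟨(Finset.sortedLT_sort _).pairwise, (Finset.sortedLT_sort _).pairwise, ?_⟩
    intro a ha b hb
    simp only [Finset.mem_sort, Finset.mem_filter] at ha hb
    exact ha.2.trans hb.2
  · intro a
    simp only [Finset.mem_sort, Finset.mem_filter, List.mem_append]
    constructor
    · intro ha
      rcases lt_trichotomy a j with h1 | h1 | h1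
      · exact Or.inl ⟨ha, h1⟩
      · exact absurd (h1 ▸ ha) h
      · exact Or.inr ⟨ha, h1⟩
    · rintro (ha | ha) <;> exact ha.1

lemma sort_split' (I : Finset (Fin n)) (j : Fin n) :
    (insert j I).sort = (I.filter (· < j)).sort ++ j :: (I.filter (j < ·)).sort := by
  apply List.SortedLT.eq_of_mem_iff (Finset.sortedLT_sort _)
  · apply List.Pairwise.sortedLT
    rw [List.pairwise_append, List.pairwise_cons]
    refine ⟨(Finset.sortedLT_sort _).pairwise, ⟨?_, (Finset.sortedLT_sort _).pairwise⟩, ?_⟩
    · intro a ha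
      simp only [Finset.mem_sort, Finset.mem_filter] at ha
      exact ha.2
    · intro a ha b hb
      simp only [Finset.mem_sort, Finset.mem_filter, List.mem_cons] at ha hb
      rcases hb with hb | hb
      · rw [hb]; exact ha.2
      · exact ha.2.trans hb.2
  · intro a
    simp only [Finset.mem_sort, Finset.mem_filter, List.mem_append, List.mem_cons,
      Finset.mem_insert]
    constructor
    · rintro (ha | ha)
      · exact Or.inr (Or.inl ha)
      · rcases lt_trichotomy a j with h1 | h1 | h1
        · exact Or.inl ⟨ha, h1⟩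
        · exact Or.inr (Or.inl h1)
        · exact Or.inr (Or.inr ⟨ha, h1⟩)
    · rintro (ha | ha | ha)
      · exact Or.inr ha.1
      · exact Or.inl ha
      · exact Or.inr ha.1

lemma ph_insert (g : Fin n → B) (I : Finset (Fin n)) (j : Fin n) :
    ph cs g (insert j I) = cs.wordProd (wd g (I.filter (· < j))) * cs.simple (g j) *
      cs.wordProd (wd g (I.filter (j < ·))) := by
  unfold ph wd
  rw [sort_split', List.map_append, List.map_cons, wordProd_append, wordProd_cons, mul_assoc]

lemma ph_split (g : Fin n → B) (I : Finset (Fin n)) {j : Fin n} (h : j ∉ I) :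
    ph cs g I = cs.wordProd (wd g (I.filter (· < j))) *
      cs.wordProd (wd g (I.filter (j < ·))) := by
  unfold ph wd
  rw [sort_split I h, List.map_append, wordProd_append]

lemma step_eq (g : Fin n → B) (I : Finset (Fin n)) {j : Fin n} (h : j ∉ I) :
    ph cs g (insert j I) = Tt cs (wd g (I.filter (· < j))) (g j) * ph cs g I := by
  rw [ph_insert, ph_split g I h, Tt]
  group

lemma len_ph {g : Fin n → B} (hg : Function.Injective g) (I : Finset (Fin n)) :
    cs.length (ph cs g I) = I.card := by
  unfold ph
  rw [red_of_nodup _ (wd_nodup hg I)]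
  simp [wd]

lemma ph_ne {g : Fin n → B} (hg : Function.Injective g) {I J : Finset (Fin n)} {j : Fin n}
    (hI : j ∈ I) (hJ : j ∉ J) : ph cs g I ≠ ph cs g J := by
  intro he
  have h1 : I = insert j (I.erase j) := (Finset.insert_erase hI).symm
  have h2 := ph_insert (cs := cs) g (I.erase j) j
  rw [← h1] at h2
  set x := wd g ((I.erase j).filter (· < j)) with hx
  set y := wd g ((I.erase j).filter (j < ·)) with hy
  have hjx : g j ∉ x := notMem_wd hg (by simp)
  have hjy : g j ∉ y := notMem_wd hg (by simp)
  have hjJ : g j ∉ wd g J := notMem_wd hg hJ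
  set v := geo cs (cs.wordProd y)⁻¹ (ee (g j)) with hv
  have hv1 : v (g j) = 1 := by
    rw [hv, ← wordProd_reverse, geo_wordProd_coord _ _ (by simpa using hjy)]
    simp [ee]
  have h3 : geo cs (ph cs g I) v (g j) = -1 := by
    rw [h2, ← geo_geo, ← geo_geo, hv, geo_apply_inv, geo_simple, sg_ee_self, map_neg,
      Pi.neg_apply, geo_wordProd_coord _ _ hjx]
    simp [ee]
  have h4 : geo cs (ph cs g J) v (g j) = 1 := by
    unfold ph
    rw [geo_wordProd_coord _ _ hjJ, hv1]
  rw [he, h4] at h3
  norm_num at h3

lemma ph_inj {g : Fin n → B} (hg : Function.Injective g) :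
    Function.Injective (ph cs g) := by
  intro I J he
  ext j
  constructor
  · intro h
    by_contra h'
    exact ph_ne hg h h' he
  · intro h
    by_contra h'
    exact ph_ne hg h h' he.symm

lemma exch {g : Fin n → B} (hg : Function.Injective g) (J : Finset (Fin n)) {t : W}
    (ht : cs.IsReflection t) (hl : cs.length (t * ph cs g J) < cs.length (ph cs g J)) :
    ∃ j ∈ J, t * ph cs g J = ph cs g (J.erase j) := by
  obtain ⟨σ, hσ, hlen, he⟩ := Pool.Agent.R330.BP.strong_exchange (cs := cs) (wd g J) t ⟨ht, hl⟩
  obtain ⟨σ', hσ', rfl⟩ := List.sublist_map_iff.1 hσ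
  have hsort : σ'.SortedLT := by
    apply List.Pairwise.sortedLT
    exact (Finset.sortedLT_sort J).pairwise.sublist hσ'
  have hnd : σ'.Nodup := hsort.nodup
  have hsub : σ'.toFinset ⊆ J := by
    intro a ha
    have := hσ'.subset (List.mem_toFinset.1 ha)
    simpa using this
  have hcard : σ'.toFinset.card + 1 = J.card := by
    rw [List.toFinset_card_of_nodup hnd]
    simpa [wd] using hlen
  have h1 : (J \ σ'.toFinset).card = 1 := by
    rw [Finset.card_sdiff_of_subset hsub]; omega
  obtain ⟨j, hj⟩ := Finset.card_eq_one.1 h1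
  have hjJ : j ∈ J ∧ j ∉ σ'.toFinset := by
    have : j ∈ J \ σ'.toFinset := by rw [hj]; simp
    simpa using this
  refine ⟨j, hjJ.1, ?_⟩
  have h2 : σ' = (J.erase j).sort := by
    apply List.SortedLT.eq_of_mem_iff hsort (Finset.sortedLT_sort _)
    intro a
    rw [Finset.mem_sort, Finset.mem_erase]
    constructor
    · intro ha
      refine ⟨?_, hsub (List.mem_toFinset.2 ha)⟩
      rintro rfl
      exact hjJ.2 (List.mem_toFinset.2 ha)
    · rintro ⟨ha1, ha2⟩
      by_contra hcon
      have : a ∈ J \ σ'.toFinset := by simp [ha2, hcon]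
      rw [hj, Finset.mem_singleton] at this
      exact ha1 this
  have h3 : t * ph cs g J = cs.wordProd (σ'.map g) := he
  rw [h3, h2]
  rfl

/-- the allowed steps -/
def AA (cs : CoxeterSystem M W) (g : Fin n → B) (k : ℕ) (I : Finset (Fin n)) (j : Fin n) : Prop :=
  cs.length (Tt cs (wd g (I.filter (· < j))) (g j)) ≤ 2 * k + 1

lemma AA1 (g : Fin n → B) (k : ℕ) (I I' : Finset (Fin n)) (j : Fin n)
    (h : ∀ i < j, (i ∈ I ↔ i ∈ I')) (hA : AA cs g k I j) : AA cs g k I' j := by
  unfold AA at *
  have h1 : I'.filter (· < j) = I.filter (· < j) := by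
    ext i
    simp only [Finset.mem_filter]
    constructor
    · rintro ⟨h1, h2⟩; exact ⟨(h i h2).2 h1, h2⟩
    · rintro ⟨h1, h2⟩; exact ⟨(h i h2).1 h1, h2⟩
  rw [h1]
  exact hA

lemma AA2 {g : Fin n → B} (hg : Function.Injective g) (k : ℕ) (I I' : Finset (Fin n)) (j : Fin n)
    (h : I ⊆ I') (hA : AA cs g k I' j) : AA cs g k I j := by
  unfold AA at *
  refine le_trans (len_mono (cs := cs) (g j) ?_ ?_) hA
  · unfold wd
    apply List.Sublist.map
    apply List.sublist_of_subperm_of_pairwise (r := (· < ·))
    · apply List.subperm_of_subset (Finset.sort_nodup _ _)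
      intro a ha
      simp only [Finset.mem_sort, Finset.mem_filter] at ha ⊢
      exact ⟨h ha.1, ha.2⟩
    · exact (Finset.sortedLT_sort _).pairwise
    · exact (Finset.sortedLT_sort _).pairwise
  · rw [List.nodup_cons]
    exact ⟨notMem_wd hg (by simp), wd_nodup hg _⟩

lemma AA3 (g : Fin n → B) (k : ℕ) (j : Fin n) : AA cs g k ∅ j := by
  unfold AA
  have h1 : wd g ((∅ : Finset (Fin n)).filter (· < j)) = [] := by simp [wd]
  rw [h1, Tt, wordProd_nil]
  simp

lemma Bru_len {a b : W} (h : Bru cs a b) : cs.length a ≤ cs.length b := by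
  induction h with
  | refl => exact le_refl _
  | tail _ h2 ih =>
    obtain ⟨t, _, _, h3⟩ := h2
    omega

/-- below an element of the form `ph J` -/
lemma down {g : Fin n → B} (hg : Function.Injective g) (k : ℕ) {w w' : W}
    (h : KLe cs k w w') : ∀ J : Finset (Fin n), w' = ph cs g J →
      ∃ I, w = ph cs g I ∧ LeA (AA cs g k) I J := by
  induction h using Relation.ReflTransGen.head_induction_on with
  | refl => intro J hJ; exact ⟨J, hJ, Relation.ReflTransGen.refl⟩
  | @head a b hab _ ih =>
    intro J hJ
    obtain ⟨I', hI', hle⟩ := ih J hJ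
    obtain ⟨t, ht, htl, hb, hBru, hne⟩ := hab
    have h1 : cs.length a < cs.length b := by
      have h2 := Bru_len hBru
      have h3 := ht.length_mul_right_ne a
      rw [← hb] at h3
      omega
    have h2 : t * ph cs g I' = a := by
      rw [← hI', hb, ← mul_assoc, ht.mul_self, one_mul]
    obtain ⟨j, hj, he⟩ := exch (cs := cs) hg I' ht (by rw [h2, ← hI']; exact h1)
    rw [h2] at he
    refine ⟨I'.erase j, he, Relation.ReflTransGen.head ?_ hle⟩
    refine ⟨j, Finset.notMem_erase j I', ?_, (Finset.insert_erase hj).symm⟩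
    have h4 := step_eq (cs := cs) g (I'.erase j) (Finset.notMem_erase j I')
    rw [Finset.insert_erase hj, ← hI', ← he, hb] at h4
    have h5 := mul_right_cancel h4
    unfold AA
    rw [← h5]
    exact htl

lemma up {g : Fin n → B} (hg : Function.Injective g) (k : ℕ) {I J : Finset (Fin n)}
    (h : LeA (AA cs g k) I J) : KLe cs k (ph cs g I) (ph cs g J) := by
  induction h with
  | refl => exact Relation.ReflTransGen.refl
  | @tail b c _ h2 ih =>
    refine Relation.ReflTransGen.tail ih ?_
    obtain ⟨j, hj, hA, rfl⟩ := h2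
    have hlt : cs.length (ph cs g b) < cs.length (ph cs g (insert j b)) := by
      rw [len_ph hg, len_ph hg, Finset.card_insert_of_notMem hj]
      omega
    refine ⟨Tt cs (wd g (b.filter (· < j))) (g j), Tt_refl _ _, hA, step_eq g b hj, ?_, ?_⟩
    · exact Relation.ReflTransGen.single ⟨_, Tt_refl _ _, step_eq g b hj, hlt⟩
    · intro he
      rw [← he] at hlt
      exact lt_irrefl _ hlt

lemma LeA_empty {A : Finset (Fin n) → Fin n → Prop} {I J : Finset (Fin n)} (h : LeA A I J) :
    J = ∅ → I = ∅ := by
  induction h with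
  | refl => exact id
  | tail _ h2 ih =>
    intro he
    obtain ⟨j, hj, hA, hc⟩ := h2
    rw [he] at hc
    exact absurd hc.symm (Finset.insert_ne_empty _ _)

end Mn

open Mn in
theorem main (htr : StmTr) (hcc : StmCC) : StmMain := by
  intro B _ M W _ cs ω hnd hall k
  classical
  set g : Fin ω.length → B := ω.get with hgdef
  have hg : Function.Injective g := List.nodup_iff_injective_get.1 hnd
  have hc : ph cs g Finset.univ = cs.wordProd ω := by
    unfold ph wd
    congr 1
    rw [Fin.sort_univ]
    exact List.map_get_finRange ω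
  have h0 : ph cs g ∅ = 1 := by
    unfold ph wd; simp
  refine htr (Finset (Fin ω.length)) W (XA (AA cs g k)) (LeA (AA cs g k)) _ (KLe cs k)
    (ph cs g) (ph_inj hg) ?_ ?_
    (hcc _ (AA cs g k) (AA1 g k) (AA2 hg k) (AA3 g k))
  · ext w
    simp only [Set.mem_ofPred_eq, Set.mem_image, XA]
    constructor
    · rintro ⟨h1, h2⟩
      obtain ⟨I, hI, hle⟩ := down hg k h2 Finset.univ hc.symm
      refine ⟨I, ⟨?_, hle⟩, hI.symm⟩
      obtain ⟨I0, hI0, hle0⟩ := down hg k h1 I hI
      rw [← h0] at hI0
      have := ph_inj hg hI0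
      rw [this]
      exact hle0
    · rintro ⟨I, ⟨h1, h2⟩, rfl⟩
      have h3 := up (cs := cs) hg k h1
      have h4 := up (cs := cs) hg k h2
      rw [h0] at h3
      rw [hc] at h4
      exact ⟨h3, h4⟩
  · intro I _ J _
    constructor
    · intro h
      obtain ⟨I0, hI0, hle⟩ := down hg k h J rfl
      rw [ph_inj hg hI0]
      exact hle
    · exact up hg k

end Pool.Agent.R600.AK
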