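import Pool.Agent.R600.AK.Stm2

set_option autoImplicit false

/-! AK2-OR (MP_20db89_co): the order of the reflections (helper611) -/

namespace Pool.Agent.R600.AK

open Pool.Agent.Helper741 Pool.Agent.TH107 CoxeterSystem

namespace OR611

variable {B : Type} [Fintype B] [DecidableEq B] {M : CoxeterMatrix B} {W : Type} [Group W]

variable (M) in
/-- apply the letters of `l` cyclically -/
noncomputable def stp : ℕ → List B → (B → ℝ) → (B → ℝ)
  | 0, _, v => v
  | _ + 1, [], v => v
  | i + 1, s :: l, v => stp i (l ++ [s]) (sg M s v)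

lemma stp_zero (l : List B) (v : B → ℝ) : stp M 0 l v = v := by
  cases l <;> rfl

lemma stp_nil (i : ℕ) (v : B → ℝ) : stp M i [] v = v := by
  cases i <;> rfl

lemma stp_cons (i : ℕ) (s : B) (l : List B) (v : B → ℝ) :
    stp M (i + 1) (s :: l) v = stp M i (l ++ [s]) (sg M s v) := rfl

lemma stp_add (i j : ℕ) (l : List B) (v : B → ℝ) :
    stp M (i + j) l v = stp M j (l.rotate i) (stp M i l v) := by
  induction i generalizing l v with
  | zero => rw [Nat.zero_add, List.rotate_zero, stp_zero]
  | succ i ih =>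
    cases l with
    | nil => rw [List.rotate_nil, stp_nil, stp_nil, stp_nil]
    | cons s l =>
      have e : i + 1 + j = (i + j) + 1 := by ring
      rw [e, stp_cons, stp_cons, ih, List.rotate_cons_succ]

variable (cs : CoxeterSystem M W)

lemma stp_full (l₁ l₂ : List B) (v : B → ℝ) :
    stp M l₁.length (l₁ ++ l₂) v = geo cs (cs.wordProd l₁)⁻¹ v := by
  induction l₁ generalizing l₂ v with
  | nil => simp [stp_zero]
  | cons s l ih =>
    rw [List.length_cons, List.cons_append, stp_cons, List.append_assoc, ih, wordProd_cons,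
      mul_inv_rev, cs.inv_simple, map_mul, Module.End.mul_apply, geo_simple]

lemma stp_pow (l : List B) (v : B → ℝ) (k : ℕ) :
    stp M (l.length * k) l v = geo cs ((cs.wordProd l)⁻¹ ^ k) v := by
  induction k with
  | zero => simp [stp_zero]
  | succ k ih =>
    rw [Nat.mul_succ, stp_add, List.rotate_length_mul, ih]
    have h := stp_full cs l [] (geo cs ((cs.wordProd l)⁻¹ ^ k) v)
    rw [List.append_nil] at h
    rw [h, geo_geo, ← pow_succ']

/-- a fixed vector of the Coxeter element is fixed by all simple reflections -/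
lemma fix (l : List B) (hl : l.Nodup) (v : B → ℝ) (hv : geo cs (cs.wordProd l) v = v) :
    ∀ i ∈ l, sg M i v = v := by
  induction l with
  | nil => intro i hi; simp at hi
  | cons s l ih =>
    have hs : s ∉ l := (List.nodup_cons.mp hl).1
    rw [wordProd_cons, map_mul, Module.End.mul_apply, geo_simple] at hv
    have h1 : geo cs (cs.wordProd l) v = sg M s v := by
      rw [← hv, sg_sg, hv]
    have h2 := geo_wordProd_coord (cs := cs) l v hs
    rw [h1, sg_apply] at h2
    have h3 : coroot M s v = 0 := by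
      simp only [Pi.sub_apply, Pi.smul_apply, ee, Pi.single_eq_same, smul_eq_mul, mul_one] at h2
      linarith
    have h4 : sg M s v = v := by rw [sg_apply, h3, zero_smul, sub_zero]
    intro i hi
    rcases List.mem_cons.mp hi with rfl | hi
    · exact h4
    · exact ih (List.nodup_cons.mp hl).2 (h1.trans h4) i hi

include cs in
/-- existence of a step after which the vector is not nonnegative -/
lemma exists_neg [Finite W] (l : List B) (hl : l.Nodup) (hc : ∀ i, i ∈ l) (β : B → ℝ)
    (hβ : 0 ≤ β) (hβ0 : β ≠ 0) : ∃ i, ¬ 0 ≤ stp M i l β := by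
  by_contra hcon
  push Not at hcon
  set d : W := (cs.wordProd l)⁻¹ with hd
  have hk : ∀ k : ℕ, 0 ≤ geo cs (d ^ k) β := fun k => by
    rw [← stp_pow]; exact hcon _
  have hpos : 0 < orderOf d := orderOf_pos d
  set v : B → ℝ := ∑ k ∈ Finset.range (orderOf d), geo cs (d ^ k) β with hv
  have hv0 : 0 ≤ v := Finset.sum_nonneg fun k _ => hk k
  have hvβ : β ≤ v := by
    have h1 := Finset.single_le_sum (f := fun k => geo cs (d ^ k) β) (fun k _ => hk k)
      (Finset.mem_range.2 hpos)
    simp only [pow_zero, map_one, Module.End.one_apply] at h1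
    exact h1
  have hvne : v ≠ 0 := by
    intro h
    rw [h] at hvβ
    exact hβ0 (le_antisymm hvβ hβ)
  have hdv : geo cs d v = v := by
    have h1 : geo cs d v = ∑ k ∈ Finset.range (orderOf d), geo cs (d ^ (k + 1)) β := by
      rw [hv, map_sum]
      refine Finset.sum_congr rfl fun k _ => ?_
      rw [geo_geo, ← pow_succ']
    have h2 := Finset.sum_range_succ (fun k => geo cs (d ^ k) β) (orderOf d)
    have h3 := Finset.sum_range_succ' (fun k => geo cs (d ^ k) β) (orderOf d)
    rw [h2, pow_orderOf_eq_one, pow_zero] at h3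
    rw [h1]
    exact (add_right_cancel h3).symm
  have hcv : geo cs (cs.wordProd l) v = v := by
    have h1 := congrArg (geo cs (cs.wordProd l)) hdv
    rw [hd, geo_apply_inv] at h1
    exact h1.symm
  have hs : ∀ i, sg M i v = v := fun i => fix cs l hl v hcv i (hc i)
  have hW : ∀ w : W, geo cs w v = v := by
    intro w
    induction w using cs.simple_induction_left with
    | one => simp
    | mul_simple_left w i ih => rw [map_mul, Module.End.mul_apply, ih, geo_simple, hs]
  obtain ⟨w, hw⟩ := Finite.exists_max (fun w : W => cs.length w)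
  have hneg : ∀ i, geo cs w (ee i) ≤ 0 := by
    intro i
    rw [geo_nonpos_iff]
    have h1 := hw (w * cs.simple i)
    have h2 := cs.length_mul_simple w i
    omega
  have hle : v ≤ 0 := by
    have h1 : geo cs w v = ∑ j, v j • geo cs w (ee j) := by
      conv_lhs => rw [decomp v]
      rw [map_sum]
      simp only [map_smul]
    rw [← hW w, h1]
    exact Finset.sum_nonpos fun j _ => smul_nonpos_of_nonneg_of_nonpos (hv0 j) (hneg j)
  exact hvne (le_antisymm hle hv0)

variable (M) in
/-- first step at which the vector is not nonnegative -/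
def Fst (i : ℕ) (l : List B) (β : B → ℝ) : Prop :=
  (∀ j ≤ i, 0 ≤ stp M j l β) ∧ ¬ 0 ≤ stp M (i + 1) l β

lemma Fst.tail {i : ℕ} {s : B} {l : List B} {β : B → ℝ} (h : Fst M (i + 1) (s :: l) β) :
    Fst M i (l ++ [s]) (sg M s β) :=
  ⟨fun j hj => h.1 (j + 1) (by omega), h.2⟩

lemma Fst.step {i : ℕ} {s : B} {l : List B} {β : B → ℝ} (h : Fst M (i + 1) (s :: l) β) :
    0 ≤ sg M s β := by
  have := h.1 1 (by omega)
  rwa [show (1 : ℕ) = 0 + 1 from rfl, stp_cons, stp_zero] at this

lemma Fst.ee {s : B} {l : List B} {β : B → ℝ} (hβ : PR cs β) (h : Fst M 0 (s :: l) β) :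
    β = ee s := by
  have h1 := h.2
  rw [stp_cons, stp_zero, ← geo_simple cs] at h1
  exact hβ.eq_ee ((hβ.root.geo (cs.simple s)).not_nonneg.1 h1)

lemma PR_sg {β : B → ℝ} (hβ : PR cs β) {s : B} (h : 0 ≤ sg M s β) : PR cs (sg M s β) := by
  refine ⟨?_, h⟩
  rw [← geo_simple cs]
  exact hβ.root.geo _

lemma fst_inj (i : ℕ) (l : List B) (β γ : B → ℝ) (hβ : PR cs β) (hγ : PR cs γ)
    (h1 : Fst M i l β) (h2 : Fst M i l γ) : β = γ := by
  induction i generalizing l β γ with
  | zero =>
    cases l with
    | nil => exact absurd hβ.pos (by simpa [stp_nil] using h1.2)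
    | cons s l => rw [Fst.ee cs hβ h1, Fst.ee cs hγ h2]
  | succ i ih =>
    cases l with
    | nil => exact absurd hβ.pos (by simpa [stp_nil] using h1.2)
    | cons s l =>
      have := ih (l ++ [s]) _ _ (PR_sg cs hβ h1.step) (PR_sg cs hγ h2.step) h1.tail h2.tail
      rw [← sg_sg M s β, this, sg_sg]

lemma adapted_rot {L : Bil B} {s : B} {l : List B} (h : Adapted M L (s :: l)) :
    Adapted M (L.compl₁₂ (sg M s) (sg M s)) (l ++ [s]) := by
  have hup : ∀ j ∈ l, L (ee j) (ee s) = 0 := (List.pairwise_cons.mp h.upper).1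
  have hup2 := (List.pairwise_cons.mp h.upper).2
  have hss : L (ee s) (ee s) = 1 := by
    apply h.sym.root
    rw [bil_ee_left, coroot_ee, cc_self]; norm_num
  have hsa : ∀ a ∈ l, L (ee s) (ee a) = coroot M s (ee a) := by
    intro a ha
    have h1 := h.sym (ee s) (ee a)
    rw [hup a ha, add_zero, bil_ee_left] at h1
    exact h1
  refine ⟨?_, ?_, ?_⟩
  · intro x y
    rw [LinearMap.compl₁₂_apply, LinearMap.compl₁₂_apply, h.sym, bil_sg]
  · rw [List.pairwise_append]
    refine ⟨?_, List.pairwise_singleton _ _, ?_⟩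
    · refine hup2.imp_of_mem ?_
      intro a b ha hb hab
      rw [LinearMap.compl₁₂_apply, sg_apply, sg_apply]
      simp only [map_sub, map_smul, LinearMap.sub_apply, LinearMap.smul_apply, smul_eq_mul]
      rw [hab, hup b hb, hsa a ha, hss]
      ring
    · intro a ha b hb
      rw [List.mem_singleton] at hb
      subst hb
      rw [LinearMap.compl₁₂_apply, sg_ee_self, sg_apply]
      simp only [map_sub, map_smul, map_neg, LinearMap.neg_apply, smul_eq_mul]
      rw [hsa a ha, hss]
      ring
  · rw [List.nodup_append]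
    refine ⟨(List.nodup_cons.mp h.nodup).2, List.nodup_singleton _, ?_⟩
    intro a ha b hb hab
    rw [List.mem_singleton] at hb
    exact (List.nodup_cons.mp h.nodup).1 (hb ▸ hab ▸ ha)

lemma sign (i : ℕ) (l : List B) (L : Bil B) (hL : Adapted M L l) (hc : ∀ j, j ∈ l) (β γ : B → ℝ)
    (hβ : PR cs β) (hγ : PR cs γ) (h1 : Fst M i l β) (h2 : ∀ j ≤ i + 1, 0 ≤ stp M j l γ) :
    0 ≤ L γ β ∧ L β γ ≤ 0 := by
  induction i generalizing l L β γ with
  | zero =>
    cases l with
    | nil => exact absurd hβ.pos (by simpa [stp_nil] using h1.2)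
    | cons s l =>
      have hup : ∀ j ∈ l, L (ee j) (ee s) = 0 := (List.pairwise_cons.mp hL.upper).1
      have hss : L (ee s) (ee s) = 1 := by
        apply hL.sym.root
        rw [bil_ee_left, coroot_ee, cc_self]; norm_num
      have e1 : L γ (ee s) = γ s := by
        rw [L_decomp_left, Finset.sum_eq_single s]
        · rw [hss, mul_one]
        · intro j _ hj
          rcases List.mem_cons.mp (hc j) with h | h
          · exact absurd h hj
          · rw [hup j h, mul_zero]
        · intro h; exact absurd (Finset.mem_univ s) h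
      have e2 : L (ee s) γ = coroot M s γ - γ s := by
        have := hL.sym (ee s) γ
        rw [e1, bil_ee_left] at this
        linarith
      have e3 : 0 ≤ sg M s γ := by
        have := h2 1 (by omega)
        rwa [show (1 : ℕ) = 0 + 1 from rfl, stp_cons, stp_zero] at this
      have e4 := e3 s
      rw [sg_apply] at e4
      simp only [Pi.zero_apply, Pi.sub_apply, Pi.smul_apply, Helper741.ee, Pi.single_eq_same,
        smul_eq_mul, mul_one] at e4
      rw [Fst.ee cs hβ h1, e1, e2]
      exact ⟨hγ.pos s, by linarith⟩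
  | succ i ih =>
    cases l with
    | nil => exact absurd hβ.pos (by simpa [stp_nil] using h1.2)
    | cons s l =>
      have e3 : 0 ≤ sg M s γ := by
        have := h2 1 (by omega)
        rwa [show (1 : ℕ) = 0 + 1 from rfl, stp_cons, stp_zero] at this
      have := ih (l ++ [s]) _ (adapted_rot hL) (fun j => by
          rcases List.mem_cons.mp (hc j) with h | h
          · simp [h]
          · simp [h]) (sg M s β) (sg M s γ) (PR_sg cs hβ h1.step) (PR_sg cs hγ e3) h1.tail
        (fun j hj => h2 (j + 1) (by omega))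
      rw [LinearMap.compl₁₂_apply, LinearMap.compl₁₂_apply, sg_sg, sg_sg] at this
      exact this

end OR611

open OR611 in
theorem orr : StmOR := by
  intro B _ _ M W _ _ cs L l hL hc
  have hex : ∀ t, cs.IsReflection t → {i | ¬ 0 ≤ stp M i l (rt cs t)}.Nonempty := fun t ht =>
    exists_neg cs l hL.nodup hc _ (rt_pos ht) (rt_isRt ht).ne_zero
  have key : ∀ t, cs.IsReflection t → ∃ i, sInf {i | ¬ 0 ≤ stp M i l (rt cs t)} = i + 1 ∧
      Fst M i l (rt cs t) := by
    intro t ht
    have h1 := Nat.sInf_mem (hex t ht)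
    have h2 : ∀ j, j < sInf {i | ¬ 0 ≤ stp M i l (rt cs t)} → 0 ≤ stp M j l (rt cs t) := by
      intro j hj
      have := Nat.notMem_of_lt_sInf hj
      simpa using this
    rcases h : sInf {i | ¬ 0 ≤ stp M i l (rt cs t)} with _ | i
    · rw [h] at h1
      exact absurd (rt_pos ht) (by simpa [stp_zero] using h1)
    · rw [h] at h1 h2
      exact ⟨i, rfl, fun j hj => h2 j (by omega), h1⟩
  refine ⟨fun t => sInf {i | ¬ 0 ≤ stp M i l (rt cs t)}, ⟨?_, ?_⟩⟩
  · intro t u ht hu htu
    obtain ⟨i, hi, hi'⟩ := key t ht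
    obtain ⟨j, hj, hj'⟩ := key u hu
    have hij : i = j := by
      have : i + 1 = j + 1 := by rw [← hi, ← hj]; exact htu
      omega
    subst hij
    exact rt_inj ht hu (fst_inj cs i l _ _ (rt_PR ht) (rt_PR hu) hi' hj')
  · intro t u ht hu htu
    obtain ⟨i, hi, hi'⟩ := key t ht
    obtain ⟨j, hj, hj'⟩ := key u hu
    have hij : i + 1 < j + 1 := by rw [← hi, ← hj]; exact htu
    exact sign cs i l L hL hc _ _ (rt_PR ht) (rt_PR hu) hi' (fun k hk => hj'.1 k (by omega))

end Pool.Agent.R600.AK
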