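import Pool.Agent.TH107.Seif
import Pool.Agent.R600.AK.Stm

set_option autoImplicit false

/-! Project AK2 (MP_20db89_co): shellability of the intervals `[e,c]_{ak}` for finite Coxeter
groups. Statements of the pieces; proofs in NOTES2.md. -/

namespace Pool.Agent.R600.AK

open Pool.Agent.Helper741 Pool.Agent.TH107 CoxeterSystem

/-- total orders of the reflections with the sign properties -/
structure Ord {B : Type} [Fintype B] [DecidableEq B] {M : CoxeterMatrix B} {W : Type} [Group W]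
    (cs : CoxeterSystem M W) (L : Bil B) (μ : W → ℕ) : Prop where
  inj : ∀ t u, cs.IsReflection t → cs.IsReflection u → μ t = μ u → t = u
  pos : ∀ t u, cs.IsReflection t → cs.IsReflection u → μ t < μ u →
    0 ≤ L (rt cs u) (rt cs t) ∧ L (rt cs t) (rt cs u) ≤ 0

/-- OR: existence of the order for finite groups -/
def StmOR : Prop := ∀ (B : Type) [Fintype B] [DecidableEq B] (M : CoxeterMatrix B) (W : Type)
  [Group W] [Finite W] (cs : CoxeterSystem M W) (L : Bil B) (l : List B), Adapted M L l →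
  (∀ i, i ∈ l) → ∃ μ : W → ℕ, Ord cs L μ

/-- UU: increasing factorizations end with the largest reflection -/
def StmUU : Prop := ∀ (B : Type) [Fintype B] [DecidableEq B] (M : CoxeterMatrix B) (W : Type)
  [Group W] (cs : CoxeterSystem M W) (L : Bil B) (l : List B) (μ : W → ℕ), Adapted M L l →
  (∀ i, i ∈ l) → Ord cs L μ → ∀ (A D C D' : List W) (s t : W),
    Fac cs l (A ++ (D ++ [s]) ++ C) → Fac cs l (A ++ (D' ++ [t]) ++ C) →
    (D ++ [s]).Pairwise (fun a b => μ a < μ b) → μ t ≤ μ s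

/-- DE: sorting a descent does not increase the lengths -/
def StmDE : Prop := ∀ (B : Type) [Fintype B] [DecidableEq B] (M : CoxeterMatrix B) (W : Type)
  [Group W] [Finite W] (cs : CoxeterSystem M W) (L : Bil B) (l : List B) (μ : W → ℕ),
  Adapted M L l → Ord cs L μ → ∀ (A C : List W) (t s : W), Fac cs l (A ++ t :: s :: C) →
    μ s < μ t → ∃ x y : W, cs.IsReflection x ∧ cs.IsReflection y ∧ x * y = t * s ∧ μ s < μ y ∧
      cs.length x ≤ max (cs.length t) (cs.length s) ∧
      cs.length y ≤ max (cs.length t) (cs.length s)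

/-- GG: increasing factorizations give increasing paths in the Bruhat order -/
def StmGG : Prop := ∀ (B : Type) [Fintype B] [DecidableEq B] (M : CoxeterMatrix B) (W : Type)
  [Group W] (cs : CoxeterSystem M W) (L : Bil B) (l : List B) (μ : W → ℕ), Adapted M L l →
  Ord cs L μ → ∀ (A D C : List W), Fac cs l (A ++ D ++ C) →
    D.Pairwise (fun a b => μ a < μ b) → ∀ (D₁ D₂ : List W) (τ : W), D = D₁ ++ τ :: D₂ →
      cs.length D₂.prod < cs.length (τ * D₂.prod)

section abs

variable {G : Type} [Group G]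

/-- factorizations -/
def FF (n : ℕ) (c : G) (T : Set G) (f : List G) : Prop :=
  f.length = n ∧ f.prod = c ∧ ∀ t ∈ f, t ∈ T

/-- abstract systems -/
structure Sys (n : ℕ) (c : G) (T : Set G) (μ : G → ℕ) : Prop where
  fin : T.Finite
  inj : ∀ t ∈ T, ∀ u ∈ T, μ t = μ u → t = u
  ne : ∃ f, FF n c T f
  h0 : ∀ A a C, ¬ FF n c T (A ++ a :: a :: C)
  h1 : ∀ A t s C, FF n c T (A ++ t :: s :: C) → μ s < μ t →
    ∃ x ∈ T, ∃ y ∈ T, x * y = t * s ∧ μ s < μ y
  h2 : ∀ A D C D' s t, FF n c T (A ++ (D ++ [s]) ++ C) → FF n c T (A ++ (D' ++ [t]) ++ C) →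
    (D ++ [s]).Pairwise (fun a b => μ a < μ b) → μ t ≤ μ s
  h3 : ∀ f f', FF n c T f → FF n c T f' → ∀ i j, i ≤ n → j ≤ n →
    (f.drop i).prod = (f'.drop j).prod → i = j

/-- elements of the poset -/
def XF (n : ℕ) (c : G) (T : Set G) : Set G :=
  {u | ∃ f, FF n c T f ∧ ∃ i, i ≤ n ∧ u = (f.drop i).prod}

/-- order of the poset -/
def RF (n : ℕ) (c : G) (T : Set G) (u v : G) : Prop :=
  ∃ f, FF n c T f ∧ ∃ i j, i ≤ n ∧ j ≤ i ∧ u = (f.drop i).prod ∧ v = (f.drop j).prod

open Classical in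
/-- the chain of a factorization -/
noncomputable def Cf (n : ℕ) (f : List G) : Finset G :=
  (Finset.range (n + 1)).image (fun i => (f.drop i).prod)

end abs

/-- SO: sorting -/
def StmSO : Prop := ∀ (G : Type) [Group G] (n : ℕ) (c : G) (T : Set G) (μ : G → ℕ),
  Sys n c T μ → ∀ A D C : List G, FF n c T (A ++ D ++ C) → ∃ D' : List G,
    D'.Pairwise (fun a b => μ a < μ b) ∧ D'.prod = D.prod ∧ D'.length = D.length ∧
    FF n c T (A ++ D' ++ C)

/-- SA: facets -/
def StmSA : Prop := ∀ (G : Type) [Group G] (n : ℕ) (c : G) (T : Set G) (μ : G → ℕ),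
  Sys n c T μ → ∀ s, IsFacet (XF n c T) (RF n c T) s ↔ ∃ f, FF n c T f ∧ Cf n f = s

open Classical in
/-- SB: exchange step -/
def StmSB : Prop := ∀ (G : Type) [Group G] (n : ℕ) (c : G) (T : Set G) (μ : G → ℕ),
  Sys n c T μ → ∀ (f f' : List G), FF n c T f → FF n c T f' → ∀ (A A' C : List G) (s t : G),
    f = A ++ s :: C → f' = A' ++ t :: C → μ t < μ s →
    ∃ f'', FF n c T f'' ∧
      (∃ (P P' Q : List G) (a b : G), f'' = P ++ b :: Q ∧ f' = P' ++ a :: Q ∧ μ a < μ b) ∧
      ∃ x ∈ Cf n f', Cf n f'' ∩ Cf n f' = (Cf n f').erase x ∧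
        Cf n f ∩ Cf n f' ⊆ Cf n f'' ∩ Cf n f'

/-- SC: the poset is shellable -/
def StmSC : Prop := ∀ (G : Type) [Group G] (n : ℕ) (c : G) (T : Set G) (μ : G → ℕ),
  Sys n c T μ → Shellable (XF n c T) (RF n c T)

section main2
variable {B : Type} {M : CoxeterMatrix B} {W : Type} [Group W] (cs : CoxeterSystem M W)

/-- length of a shortest directed path from the identity in the graph `Ω^k` -/
noncomputable def lk (k : ℕ) (w : W) : ℕ :=
  sInf {r | ∃ p : ℕ → W, p 0 = 1 ∧ p r = w ∧ ∀ i < r, cs.IsReflection (p i * (p (i + 1))⁻¹) ∧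
    cs.length (p i * (p (i + 1))⁻¹) ≤ 2 * k + 1 ∧ Bru cs (p i) (p (i + 1)) ∧ p i ≠ p (i + 1)}

/-- the `k`-absolute order -/
def Ale (k : ℕ) (u v : W) : Prop := lk cs k v = lk cs k u + lk cs k (v * u⁻¹)

end main2

/-- the second main result -/
def StmMain2 : Prop := ∀ (B : Type) [Fintype B] (M : CoxeterMatrix B) (W : Type) [Group W]
  [Finite W] (cs : CoxeterSystem M W) (ω : List B), ω.Nodup → (∀ i, i ∈ ω) → ∀ k : ℕ,
  Shellable {w | Ale cs k 1 w ∧ Ale cs k w (cs.wordProd ω)} (Ale cs k)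

end Pool.Agent.R600.AK
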